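import Pool.Agent.V8H12.AM.F
import Pool.Agent.N141.SG.Deg5

set_option autoImplicit false

/-! Degrees which are values of arithmetic functions (helper12). -/

namespace Pool.Agent.V8H12.AM

open Finset Filter
open Pool.Agent.H469R2.NK (e norm_e e_add)
open Pool.Agent.N141.SG (SmallTo AlgSmall arc1 boxes_good yc irr_deg cells cells_card rad den DTgt NearDeg window_deg
  window_eleven wlo whi win_tab win_sum three_lt sqrt_int)
open Pool.Agent.TH885.NW (loW upW win_len)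

/-- every value is taken rarely -/
lemma few_val {s : ℕ → Finset ℕ} {v : ℕ → ℤ} (h : AlgSmall s v) (w : ℤ) {δ : ℝ} (hδ : 0 < δ) : ∀ᶠ N : ℕ in atTop,
    ({t : ℕ | t ∈ s N ∧ v t = w}.ncard : ℝ) ≤ δ * (s N).card := by
  have h2 : IsAlgebraic ℤ (√(2 : ℝ)) := by
    have := sqrt_int 2
    push_cast at this
    exact this.isAlgebraic
  have h1 := arc1 (s := s) (x := fun t => √2 * (v t : ℝ)) (fun k hk => by
    have h3 := h ((k : ℝ) * √2) (irrational_sqrt_two.intCast_mul hk) ((isAlgebraic_intCast k).mul h2)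
    have e1 : (fun t => (k : ℝ) * (√2 * (v t : ℝ))) = fun t => (k : ℝ) * √2 * v t := by
      funext t
      ring
    rw [e1]
    exact h3) (le_refl (√2 * (w : ℝ))) hδ
  filter_upwards [h1] with N hN
  rw [sub_self, zero_add] at hN
  refine le_trans ?_ hN
  have hsub : {t : ℕ | t ∈ s N ∧ v t = w} ⊆
      {n : ℕ | n ∈ s N ∧ ∃ z : ℤ, √2 * (w : ℝ) ≤ √2 * (v n : ℝ) - z ∧ √2 * (v n : ℝ) - z ≤ √2 * (w : ℝ)} := by
    rintro t ⟨h3, h4⟩
    refine ⟨h3, 0, ?_, ?_⟩ <;> simp [h4]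
  exact_mod_cast Set.ncard_le_ncard hsub ((Finset.finite_toSet (s N)).subset fun n hn => hn.1)

/-- small values are rare -/
lemma few_small {s : ℕ → Finset ℕ} {f : ℕ → ℕ} (h : AlgSmall s (fun t => (f t : ℤ))) (B : ℕ) {δ : ℝ} (hδ : 0 < δ) :
    ∀ᶠ N : ℕ in atTop, ({t : ℕ | t ∈ s N ∧ f t < B}.ncard : ℝ) ≤ δ * (s N).card := by
  classical
  have h1 : ∀ w ∈ range B, ∀ᶠ N : ℕ in atTop, ({t : ℕ | t ∈ s N ∧ (f t : ℤ) = (w : ℤ)}.ncard : ℝ) ≤
      (δ / (B + 1)) * (s N).card := fun w _ => few_val h w (by positivity)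
  filter_upwards [(Filter.eventually_all_finset (range B)).2 h1] with N hN
  have hsub : {t : ℕ | t ∈ s N ∧ f t < B} ⊆
      (((range B).biUnion fun w => (s N).filter (fun t => f t = w) : Finset ℕ) : Set ℕ) := by
    rintro t ⟨h2, h3⟩
    rw [Finset.mem_coe, mem_biUnion]
    exact ⟨f t, mem_range.2 h3, mem_filter.2 ⟨h2, rfl⟩⟩
  have h2 := Set.ncard_le_ncard hsub (Finset.finite_toSet _)
  rw [Set.ncard_coe_finset] at h2
  have h3 : (({t : ℕ | t ∈ s N ∧ f t < B}.ncard : ℕ) : ℝ) ≤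
      ∑ w ∈ range B, (((s N).filter (fun t => f t = w)).card : ℝ) := by
    exact_mod_cast h2.trans card_biUnion_le
  have h4 : ∀ w ∈ range B, (((s N).filter (fun t => f t = w)).card : ℝ) ≤ (δ / (B + 1)) * (s N).card := by
    intro w hw
    have h5 := hN w hw
    have e1 : {t : ℕ | t ∈ s N ∧ (f t : ℤ) = (w : ℤ)} = (((s N).filter (fun t => f t = w) : Finset ℕ) : Set ℕ) := by
      ext t
      simp
    rw [e1, Set.ncard_coe_finset] at h5
    exact h5
  refine h3.trans ((sum_le_sum h4).trans ?_)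
  rw [sum_const, card_range, nsmul_eq_mul]
  have h5 : (0 : ℝ) ≤ (s N).card := Nat.cast_nonneg _
  have h6 : (B : ℝ) * (δ / (B + 1)) ≤ δ := by
    rw [mul_div_assoc', div_le_iff₀ (by positivity)]
    nlinarith
  calc (B : ℝ) * (δ / (B + 1) * (s N).card) = (B : ℝ) * (δ / (B + 1)) * (s N).card := by ring
    _ ≤ δ * (s N).card := mul_le_mul_of_nonneg_right h6 h5

lemma alg_deg (g : Fin 20 → ℤ) : IsAlgebraic ℤ (∑ j : Fin 20, (g j : ℝ) * (√(rad j.succ : ℝ) / den j.succ)) := by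
  have h0 : ∀ j : Fin 20, IsAlgebraic ℚ ((g j : ℝ) * (√(rad j.succ : ℝ) / den j.succ)) := by
    intro j
    have h1 : IsAlgebraic ℤ (√(rad j.succ : ℝ)) := (sqrt_int _).isAlgebraic
    have h2 : IsAlgebraic ℚ (√(rad j.succ : ℝ)) := h1.extendScalars (Int.cast_injective)
    have h3 : IsAlgebraic ℚ (((den j.succ : ℕ) : ℝ)) := isAlgebraic_natCast _
    have h4 : IsAlgebraic ℚ ((g j : ℝ)) := isAlgebraic_intCast _
    rw [div_eq_mul_inv]
    exact h4.mul (h2.mul h3.inv)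
  have h1 : IsAlgebraic ℚ (∑ j : Fin 20, (g j : ℝ) * (√(rad j.succ : ℝ) / den j.succ)) :=
    Finset.sum_induction _ (IsAlgebraic ℚ) (fun _ _ ha hb => ha.add hb) isAlgebraic_zero (fun j _ => h0 j)
  exact (IsFractionRing.isAlgebraic_iff ℤ ℚ ℝ).2 h1

/-- **every number of points and every multiplicity** -/
theorem dtgt_gen {s : ℕ → Finset ℕ} {f : ℕ → ℕ} (hA : AlgSmall s (fun t => (f t : ℤ))) : ∀ᶠ N : ℕ in atTop,
    14 / 1000 * ((s N).card : ℝ) ≤ ({t : ℕ | t ∈ s N ∧ DTgt (f t)}.ncard : ℝ) := by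
  classical
  have h1 := boxes_good (r := 20) (by norm_num) (s := s)
    (x := fun t j => yc (f t) j.succ)
    (by
      intro g hg
      have h2 := (hA _ (irr_deg hg) (alg_deg g)).add_const
        ((∑ j : Fin 20, (g j : ℝ) * (√(rad j.succ : ℝ) / den j.succ)) * (3 / 2))
      have e1 : (fun t : ℕ => ∑ j : Fin 20, (g j : ℝ) * yc (f t) j.succ) = fun t : ℕ =>
          (∑ j : Fin 20, (g j : ℝ) * (√(rad j.succ : ℝ) / den j.succ)) * (((f t : ℕ) : ℤ) : ℝ) +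
            (∑ j : Fin 20, (g j : ℝ) * (√(rad j.succ : ℝ) / den j.succ)) * (3 / 2) := by
        funext t
        rw [sum_mul, sum_mul, ← sum_add_distrib, Int.cast_natCast]
        exact sum_congr rfl fun j _ => by
          unfold yc
          ring
      rw [e1]
      exact h2) (q := 200) (by norm_num)
    (fun j => (cells j.succ).map ⟨fun c : ℕ => (c : ℤ), Nat.cast_injective⟩)
    (by
      intro j c hc
      rw [Finset.mem_map] at hc
      obtain ⟨c', hc', rfl⟩ := hc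
      rw [cells, Finset.mem_filter, Finset.mem_range] at hc'
      simp only [Function.Embedding.coeFn_mk]
      have := hc'.1
      constructor
      · positivity
      · exact_mod_cast this) (δ := 1 / 200 ^ 20 / 1000) (by norm_num)
  filter_upwards [h1] with N hi
  simp only [Finset.card_map] at hi
  rw [cells_card] at hi
  have hK0 : (0 : ℝ) ≤ ((s N).card : ℝ) := Nat.cast_nonneg _
  have h2 : (14 / 1000 : ℝ) * ((s N).card : ℝ) ≤ ((149505592005956361232790896402942230528000000 : ℕ) : ℝ) *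
      (1 / ((200 : ℕ) : ℝ) ^ 20 - 1 / 200 ^ 20 / 1000) * ((s N).card : ℝ) := by
    refine mul_le_mul_of_nonneg_right ?_ hK0
    norm_num
  refine h2.trans (hi.trans ?_)
  have hsub : {t : ℕ | t ∈ s N ∧ ∀ j : Fin 20, ∃ c ∈
      (cells j.succ).map ⟨fun c : ℕ => (c : ℤ), Nat.cast_injective⟩,
      ((200 : ℕ) : ℤ) ∣ ⌊((200 : ℕ) : ℝ) * yc (f t) j.succ⌋ - c} ⊆
      {t : ℕ | t ∈ s N ∧ DTgt (f t)} := by
    rintro t ⟨hd, hd'⟩
    refine ⟨hd, fun j => ?_⟩
    obtain ⟨c, hc, hdv⟩ := hd' j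
    rw [Finset.mem_map] at hc
    obtain ⟨c', hc', rfl⟩ := hc
    exact ⟨c', hc', by exact_mod_cast hdv⟩
  exact_mod_cast Set.ncard_le_ncard hsub
    ((Finset.finite_toSet (s N)).subset fun n hn => hn.1)

/-- from the bad members to the good members -/
lemma good_of_bad {s : Finset ℕ} {p : ℕ → Prop} {c : ℝ}
    (h : ({t : ℕ | t ∈ s ∧ ¬ p t}.ncard : ℝ) ≤ c * s.card) :
    (1 - c) * s.card ≤ ({t : ℕ | t ∈ s ∧ p t}.ncard : ℝ) := by
  classical
  have e1 : {t : ℕ | t ∈ s ∧ p t} = ((s.filter p : Finset ℕ) : Set ℕ) := by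
    ext d
    simp
  have e2 : {t : ℕ | t ∈ s ∧ ¬ p t} = ((s.filter (fun d => ¬ p d) : Finset ℕ) : Set ℕ) := by
    ext d
    simp
  rw [e2, Set.ncard_coe_finset] at h
  rw [e1, Set.ncard_coe_finset]
  have h7 := Finset.card_filter_add_card_filter_not (s := s) p
  have h8 : ((s.filter p).card : ℝ) + ((s.filter (fun d => ¬ p d)).card : ℝ) = s.card := by exact_mod_cast h7
  linarith

/-- **ten points** -/
theorem ten_gen {s : ℕ → Finset ℕ} {f : ℕ → ℕ} (hA : AlgSmall s (fun t => (f t : ℤ))) : ∀ᶠ N : ℕ in atTop,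
    486 / 1000 * ((s N).card : ℝ) ≤ ({t : ℕ | t ∈ s N ∧ NearDeg 10 (f t)}.ncard : ℝ) := by
  classical
  have hirr : Irrational √((10 : ℕ) : ℝ) := by
    rw [irrational_sqrt_natCast_iff]
    rintro ⟨k, hk⟩
    have : k ≤ 3 := by nlinarith
    interval_cases k <;> omega
  have halg : IsAlgebraic ℤ √((10 : ℕ) : ℝ) := (sqrt_int 10).isAlgebraic
  obtain ⟨g1, g2, g3⟩ := win_len (le_refl 10)
  have hs0 : 0 < √((10 : ℕ) : ℝ) := by
    have := three_lt (le_refl 10)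
    linarith
  have hS : √((10 : ℕ) : ℝ) ≤ 3.16228 := by
    rw [Real.sqrt_le_left (by norm_num)]
    norm_num
  have hL : 3.16227 ≤ √((10 : ℕ) : ℝ) := by
    apply Real.le_sqrt_of_sq_le
    norm_num
  have hlo : loW 10 ≤ √((10 : ℕ) : ℝ) - 3 := by
    unfold loW
    exact min_le_left _ _
  have hup : upW 10 ≤ √((10 : ℕ) : ℝ) - 3 := by
    unfold upW
    exact min_le_left _ _
  have h1 := arc1 (s := s)
    (x := fun t => -√((10 : ℕ) : ℝ) * ((f t : ℕ) : ℝ) + √((10 : ℕ) : ℝ) * ((√((10 : ℕ) : ℝ) - 3) / 2))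
    (by
      intro k hk
      have h2 := (hA ((k : ℝ) * -√((10 : ℕ) : ℝ)) (hirr.neg.intCast_mul hk)
        ((isAlgebraic_intCast k).mul halg.neg)).add_const
        (k * (√((10 : ℕ) : ℝ) * ((√((10 : ℕ) : ℝ) - 3) / 2)))
      have e1 : (fun t : ℕ => (k : ℝ) * (-√((10 : ℕ) : ℝ) * ((f t : ℕ) : ℝ) +
          √((10 : ℕ) : ℝ) * ((√((10 : ℕ) : ℝ) - 3) / 2))) = fun t : ℕ =>
          (k : ℝ) * -√((10 : ℕ) : ℝ) * (((f t : ℕ) : ℤ) : ℝ) +
            k * (√((10 : ℕ) : ℝ) * ((√((10 : ℕ) : ℝ) - 3) / 2)) := by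
        funext t
        rw [Int.cast_natCast]
        ring
      rw [e1]
      exact h2)
    (lo := -(√((10 : ℕ) : ℝ) * (upW 10 / 2))) (hi := √((10 : ℕ) : ℝ) * (loW 10 / 2))
    (by
      have : 0 ≤ √((10 : ℕ) : ℝ) * (upW 10 / 2) + √((10 : ℕ) : ℝ) * (loW 10 / 2) := by
        rw [← mul_add]
        exact mul_nonneg hs0.le (by linarith)
      linarith) (δ := 1 / 10000) (by norm_num)
  filter_upwards [h1] with N hj
  have hK0 : (0 : ℝ) ≤ (s N).card := Nat.cast_nonneg _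
  have hlen : √((10 : ℕ) : ℝ) * (loW 10 / 2) - -(√((10 : ℕ) : ℝ) * (upW 10 / 2)) + 1 / 10000 ≤
      514 / 1000 := by
    have h3 : √((10 : ℕ) : ℝ) * (loW 10 / 2) + √((10 : ℕ) : ℝ) * (upW 10 / 2) ≤
        √((10 : ℕ) : ℝ) * (√((10 : ℕ) : ℝ) - 3) := by
      rw [← mul_add]
      refine mul_le_mul_of_nonneg_left ?_ hs0.le
      generalize √((10 : ℕ) : ℝ) = t at hlo hup ⊢
      generalize loW 10 = u at hlo ⊢
      generalize upW 10 = v at hup ⊢
      linarith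
    have h4 : √((10 : ℕ) : ℝ) * √((10 : ℕ) : ℝ) = 10 := by
      rw [Real.mul_self_sqrt (Nat.cast_nonneg _)]
      norm_num
    nlinarith
  have hbad : ({t : ℕ | t ∈ s N ∧ ¬ NearDeg 10 (f t)}.ncard : ℝ) ≤ 514 / 1000 * (s N).card := by
    have hsub : {t : ℕ | t ∈ s N ∧ ¬ NearDeg 10 (f t)} ⊆
        {n : ℕ | n ∈ s N ∧ ∃ z : ℤ, -(√((10 : ℕ) : ℝ) * (upW 10 / 2)) ≤
          -√((10 : ℕ) : ℝ) * ((f n : ℕ) : ℝ) + √((10 : ℕ) : ℝ) * ((√((10 : ℕ) : ℝ) - 3) / 2) - z ∧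
          -√((10 : ℕ) : ℝ) * ((f n : ℕ) : ℝ) + √((10 : ℕ) : ℝ) * ((√((10 : ℕ) : ℝ) - 3) / 2) - z ≤
            √((10 : ℕ) : ℝ) * (loW 10 / 2)} :=
      fun d hd => ⟨hd.1, window_deg (le_refl 10) hd.2⟩
    have h5 := Set.ncard_le_ncard hsub ((Finset.finite_toSet (s N)).subset fun n hn => hn.1)
    have h6 : (({t : ℕ | t ∈ s N ∧ ¬ NearDeg 10 (f t)}.ncard : ℕ) : ℝ) ≤ _ := Nat.cast_le.2 h5
    exact h6.trans (hj.trans (mul_le_mul_of_nonneg_right hlen hK0))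
  have h2 := good_of_bad hbad
  linarith

/-- **eleven points** -/
theorem eleven_gen {s : ℕ → Finset ℕ} {f : ℕ → ℕ} (hA : AlgSmall s (fun t => (f t : ℤ))) : ∀ᶠ N : ℕ in atTop,
    986 / 1000 * ((s N).card : ℝ) ≤ ({t : ℕ | t ∈ s N ∧ NearDeg 11 (f t)}.ncard : ℝ) := by
  classical
  have h0 : Irrational √((11 : ℕ) : ℝ) := by
    rw [irrational_sqrt_natCast_iff]
    rintro ⟨k, hk⟩
    have : k ≤ 3 := by nlinarith
    interval_cases k <;> omega
  have hirr : Irrational (√(11 : ℝ) / 11) := by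
    have h1 := h0.div_natCast (m := 11) (by norm_num)
    push_cast at h1
    exact h1
  have halg : IsAlgebraic ℤ (√(11 : ℝ) / 11) := by
    have h1 := Pool.Agent.N141.SG.alg_inv_sqrt (n := 11) (by norm_num)
    have e1 : (√((11 : ℕ) : ℝ))⁻¹ = √(11 : ℝ) / 11 := by
      have h2 : √(11 : ℝ) * √(11 : ℝ) = 11 := Real.mul_self_sqrt (by norm_num)
      have h3 : √(11 : ℝ) ≠ 0 := by positivity
      push_cast
      rw [inv_eq_one_div, div_eq_div_iff h3 (by norm_num)]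
      linarith
    rwa [e1] at h1
  have harc : ∀ i : Fin 11, ∀ᶠ N : ℕ in atTop,
      ({t : ℕ | t ∈ s N ∧ ∃ z : ℤ,
        (wlo i : ℝ) ≤ √11 / 11 * ((f t : ℕ) : ℝ) - z ∧ √11 / 11 * ((f t : ℕ) : ℝ) - z ≤ whi i}.ncard : ℝ) ≤
        ((whi i : ℝ) - wlo i + 1 / 1000000) * (s N).card := by
    intro i
    refine arc1 (s := s) (x := fun t => √11 / 11 * ((f t : ℕ) : ℝ)) (fun k hk => ?_) (win_tab i).2.2.2 (by norm_num)
    have h2 := hA ((k : ℝ) * (√11 / 11)) (hirr.intCast_mul hk) ((isAlgebraic_intCast k).mul halg)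
    have e1 : (fun t : ℕ => (k : ℝ) * (√11 / 11 * ((f t : ℕ) : ℝ))) =
        fun t : ℕ => (k : ℝ) * (√11 / 11) * (((f t : ℕ) : ℤ) : ℝ) := by
      funext t
      rw [Int.cast_natCast]
      ring
    rw [e1]
    exact h2
  filter_upwards [Filter.eventually_all.2 harc, few_small hA 100 (δ := 1 / 10000) (by norm_num)] with N hj hsm
  have hK0 : (0 : ℝ) ≤ (s N).card := Nat.cast_nonneg _
  set A : Fin 11 → Finset ℕ := fun i => (s N).filter (fun t =>
    ∃ z : ℤ, (wlo i : ℝ) ≤ √11 / 11 * ((f t : ℕ) : ℝ) - z ∧ √11 / 11 * ((f t : ℕ) : ℝ) - z ≤ whi i) with hAdef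
  set B : Finset ℕ := (s N).filter (fun t => f t < 100) with hB
  have hAc : ∀ i, ((A i).card : ℝ) ≤ ((whi i : ℝ) - wlo i + 1 / 1000000) * (s N).card := by
    intro i
    have h1 := hj i
    have e1 : {t : ℕ | t ∈ s N ∧ ∃ z : ℤ,
        (wlo i : ℝ) ≤ √11 / 11 * ((f t : ℕ) : ℝ) - z ∧ √11 / 11 * ((f t : ℕ) : ℝ) - z ≤ whi i} =
        ((A i : Finset ℕ) : Set ℕ) := by
      ext n
      simp [hAdef]
    rw [e1, Set.ncard_coe_finset] at h1
    exact h1
  have hBc : (B.card : ℝ) ≤ 1 / 10000 * (s N).card := by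
    have e1 : {t : ℕ | t ∈ s N ∧ f t < 100} = ((B : Finset ℕ) : Set ℕ) := by
      ext n
      simp [hB]
    rw [e1, Set.ncard_coe_finset] at hsm
    exact hsm
  have hbad : ({t : ℕ | t ∈ s N ∧ ¬ NearDeg 11 (f t)}.ncard : ℝ) ≤ 14 / 1000 * (s N).card := by
    have hsub : {t : ℕ | t ∈ s N ∧ ¬ NearDeg 11 (f t)} ⊆
        ((B ∪ Finset.univ.biUnion A : Finset ℕ) : Set ℕ) := by
      rintro t ⟨hd, hd'⟩
      rw [Finset.mem_coe, Finset.mem_union]
      rcases lt_or_ge (f t) 100 with h | h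
      · exact Or.inl (by rw [hB, Finset.mem_filter]; exact ⟨hd, h⟩)
      · right
        obtain ⟨k, hk, i, z, h1, h2⟩ := window_eleven h hd'
        refine Finset.mem_biUnion.2 ⟨i, Finset.mem_univ _, ?_⟩
        rw [hAdef, Finset.mem_filter]
        have e1 : √(11 : ℝ) / 11 * ((f t : ℕ) : ℝ) = √11 / 11 * 3 * k := by
          rw [hk]
          push_cast
          ring
        refine ⟨hd, z, ?_, ?_⟩
        · rw [e1]
          exact h1
        · rw [e1]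
          exact h2
    have h1 := Set.ncard_le_ncard hsub (Finset.finite_toSet _)
    rw [Set.ncard_coe_finset] at h1
    have h2 : (B ∪ Finset.univ.biUnion A).card ≤ B.card + ∑ i, (A i).card :=
      (Finset.card_union_le _ _).trans (Nat.add_le_add_left Finset.card_biUnion_le _)
    have h3 : (({t : ℕ | t ∈ s N ∧ ¬ NearDeg 11 (f t)}.ncard : ℕ) : ℝ) ≤
        (B.card : ℝ) + ∑ i, ((A i).card : ℝ) := by exact_mod_cast h1.trans h2
    have h4 : ∑ i, ((A i).card : ℝ) ≤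
        ∑ i : Fin 11, ((whi i : ℝ) - wlo i + 1 / 1000000) * (s N).card :=
      Finset.sum_le_sum fun i _ => hAc i
    rw [← Finset.sum_mul, Finset.sum_add_distrib, win_sum, Finset.sum_const, Finset.card_univ,
      Fintype.card_fin, nsmul_eq_mul] at h4
    have h6 : (13779 / 1000000 + ((11 : ℕ) : ℝ) * (1 / 1000000)) = 1379 / 100000 := by norm_num
    rw [h6] at h4
    linarith
  have h2 := good_of_bad hbad
  linarith

theorem dtgt_win {f : ℕ → ℕ} (hf : PL f) {ρ : ℝ} (hρ : 0 < ρ) : ∀ᶠ N : ℕ in atTop,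
    14 / 1000 * ((⌊ρ * N⌋₊ : ℕ) : ℝ) ≤ ({t : ℕ | t ∈ win ρ N ∧ DTgt (f t)}.ncard : ℝ) := by
  filter_upwards [dtgt_gen (algSmall_win hf hρ)] with N h
  rwa [card_win] at h

theorem ten_win {f : ℕ → ℕ} (hf : PL f) {ρ : ℝ} (hρ : 0 < ρ) : ∀ᶠ N : ℕ in atTop,
    486 / 1000 * ((⌊ρ * N⌋₊ : ℕ) : ℝ) ≤ ({t : ℕ | t ∈ win ρ N ∧ NearDeg 10 (f t)}.ncard : ℝ) := by
  filter_upwards [ten_gen (algSmall_win hf hρ)] with N h
  rwa [card_win] at h

theorem eleven_win {f : ℕ → ℕ} (hf : PL f) {ρ : ℝ} (hρ : 0 < ρ) : ∀ᶠ N : ℕ in atTop,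
    986 / 1000 * ((⌊ρ * N⌋₊ : ℕ) : ℝ) ≤ ({t : ℕ | t ∈ win ρ N ∧ NearDeg 11 (f t)}.ncard : ℝ) := by
  filter_upwards [eleven_gen (algSmall_win hf hρ)] with N h
  rwa [card_win] at h

end Pool.Agent.V8H12.AM
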