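import Pool.Agent.V8H12.AM.E
import Pool.Agent.N141.SG.Seq5

set_option autoImplicit false

/-! Plane systems along the values of arithmetic functions (helper12). -/

namespace Pool.Agent.V8H12.AM

open Finset Filter
open Pool.Agent.H469R2.NK (e norm_e e_add)
open Pool.Agent.N141.SG (SmallTo AlgSmall Tgt liouville arc1 one_seq near_seq tgt_of_freq)

/-- the members of `(N, N + ρ N]` -/
noncomputable def win (ρ : ℝ) (N : ℕ) : Finset ℕ := Ioc N (N + ⌊ρ * N⌋₊)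

lemma card_win (ρ : ℝ) (N : ℕ) : (win ρ N).card = ⌊ρ * N⌋₊ := by
  rw [win, Nat.card_Ioc]
  omega

lemma lio_of {θ : ℝ} (hθ : Irrational θ) (ha : IsAlgebraic ℤ θ) : ∃ τ c : ℝ, 1 ≤ τ ∧ 0 < c ∧ Lio τ c θ := by
  obtain ⟨τ, hτ, c, hc, h⟩ := liouville hθ ha
  refine ⟨max τ 1, c, le_max_right _ _, hc, fun n hn m => ?_⟩
  have hn1 : (1 : ℝ) ≤ n := by exact_mod_cast hn
  have h1 := h n (fun _ => (n : ℤ)) (by
    intro h0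
    have := congrFun h0 0
    simp only [Pi.zero_apply, Nat.cast_eq_zero] at this
    omega) (fun _ => by rw [abs_of_nonneg (Int.natCast_nonneg n)]) m
  rw [Fin.sum_univ_one] at h1
  refine le_trans ?_ (h1.trans (le_of_eq (by push_cast; ring_nf)))
  apply mul_le_mul_of_nonneg_left _ hc.le
  apply Real.rpow_le_rpow_of_exponent_le hn1
  have := le_max_left τ 1
  linarith

/-- the exponential sums over the windows -/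
theorem algSmall_win {f : ℕ → ℕ} (hf : PL f) {ρ : ℝ} (hρ : 0 < ρ) : AlgSmall (win ρ) (fun t => (f t : ℤ)) := by
  intro θ hθ ha ε hε
  obtain ⟨δ, hδ⟩ : ∃ δ : ℝ, δ = ε * ρ / (2 * (2 + ρ)) := ⟨_, rfl⟩
  have hδ0 : 0 < δ := by rw [hδ]; positivity
  have h1 := exp_sum hf hθ (lio_of hθ ha) δ hδ0
  have ht : Tendsto (fun N : ℕ => N + ⌊ρ * N⌋₊) atTop atTop :=
    tendsto_atTop_mono (fun N => Nat.le_add_right N _) tendsto_id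
  filter_upwards [h1, ht.eventually h1, tendsto_natCast_atTop_atTop.eventually_ge_atTop (2 / ρ)] with N h2 h3 h4
  rw [card_win]
  have hN0 : (0 : ℝ) ≤ N := Nat.cast_nonneg _
  have hfl : ((⌊ρ * N⌋₊ : ℕ) : ℝ) ≤ ρ * N := Nat.floor_le (by positivity)
  have hfl2 : ρ * N < ((⌊ρ * N⌋₊ : ℕ) : ℝ) + 1 := Nat.lt_floor_add_one _
  have hρN : 2 ≤ ρ * N := by
    rw [div_le_iff₀ hρ] at h4
    linarith
  have e1 : ∑ n ∈ Icc 1 (N + ⌊ρ * N⌋₊), e (θ * f n) = ∑ n ∈ Icc 1 N, e (θ * f n) + ∑ n ∈ win ρ N, e (θ * f n) := by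
    have e2 : Icc 1 (N + ⌊ρ * N⌋₊) = Icc 1 N ∪ win ρ N := by
      ext t
      rw [win, mem_union, mem_Icc, mem_Icc, mem_Ioc]
      omega
    rw [e2, sum_union]
    rw [Finset.disjoint_left]
    intro t h5 h6
    rw [win, mem_Ioc] at h6
    rw [mem_Icc] at h5
    omega
  have e3 : ∑ n ∈ win ρ N, e (θ * ((f n : ℤ) : ℝ)) =
      ∑ n ∈ Icc 1 (N + ⌊ρ * N⌋₊), e (θ * f n) - ∑ n ∈ Icc 1 N, e (θ * f n) := by
    rw [e1, add_sub_cancel_left]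
    exact sum_congr rfl fun n _ => by rw [Int.cast_natCast]
  rw [e3]
  refine (norm_sub_le _ _).trans ((add_le_add h3 h2).trans ?_)
  push_cast
  have h5 : δ * (2 + ρ) = ε * ρ / 2 := by
    rw [hδ]
    field_simp
  nlinarith

/-- few values vanish -/
lemma few_zero {s : ℕ → Finset ℕ} {v : ℕ → ℤ} (h : AlgSmall s v) {δ : ℝ} (hδ : 0 < δ) : ∀ᶠ N : ℕ in atTop,
    ({t : ℕ | t ∈ s N ∧ v t = 0}.ncard : ℝ) ≤ δ * (s N).card := by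
  have h2 : IsAlgebraic ℤ (√(2 : ℝ)) := by
    have := Pool.Agent.N141.SG.sqrt_int 2
    push_cast at this
    exact this.isAlgebraic
  have h1 := arc1 (s := s) (x := fun t => √2 * (v t : ℝ)) (fun k hk => by
    have h3 := h ((k : ℝ) * √2) (irrational_sqrt_two.intCast_mul hk) ((isAlgebraic_intCast k).mul h2)
    have e1 : (fun t => (k : ℝ) * (√2 * (v t : ℝ))) = fun t => (k : ℝ) * √2 * v t := by
      funext t
      ring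
    rw [e1]
    exact h3) (le_refl (0 : ℝ)) hδ
  filter_upwards [h1] with N hN
  rw [sub_zero, zero_add] at hN
  refine le_trans ?_ hN
  have hsub : {t : ℕ | t ∈ s N ∧ v t = 0} ⊆
      {n : ℕ | n ∈ s N ∧ ∃ z : ℤ, (0 : ℝ) ≤ √2 * (v n : ℝ) - z ∧ √2 * (v n : ℝ) - z ≤ 0} := by
    rintro t ⟨h3, h4⟩
    refine ⟨h3, 0, ?_, ?_⟩ <;> simp [h4]
  exact_mod_cast Set.ncard_le_ncard hsub ((Finset.finite_toSet (s N)).subset fun n hn => hn.1)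

/-- **every number of points** -/
theorem tgt_gen {s : ℕ → Finset ℕ} {f : ℕ → ℕ} (hA : AlgSmall s (fun t => (f t : ℤ))) : ∀ᶠ N : ℕ in atTop,
    1 / 10 ^ 89 * ((s N).card : ℝ) ≤ ({t : ℕ | t ∈ s N ∧ 1 ≤ f t ∧ Tgt (f t)}.ncard : ℝ) := by
  have h1 := tgt_of_freq (s := s) (v := fun t => (f t : ℤ)) (fun θ hθ => hA θ hθ.1 hθ.2.isAlgebraic)
  filter_upwards [h1, few_zero hA (δ := 1 / 10 ^ 89) (by positivity)] with N h2 h3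
  have hfin : {t : ℕ | t ∈ s N ∧ 1 ≤ f t ∧ Tgt (f t)}.Finite :=
    (Finset.finite_toSet (s N)).subset fun n hn => hn.1
  have hfin2 : {t : ℕ | t ∈ s N ∧ ((f t : ℕ) : ℤ) = 0}.Finite :=
    (Finset.finite_toSet (s N)).subset fun n hn => hn.1
  have hsub : {t : ℕ | t ∈ s N ∧ Tgt (f t)} ⊆
      {t : ℕ | t ∈ s N ∧ 1 ≤ f t ∧ Tgt (f t)} ∪ {t : ℕ | t ∈ s N ∧ ((f t : ℕ) : ℤ) = 0} := by
    rintro t ⟨h4, h5⟩
    rcases Nat.eq_zero_or_pos (f t) with h6 | h6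
    · right
      exact ⟨h4, by rw [h6]; rfl⟩
    · left
      exact ⟨h4, h6, h5⟩
  have h4 := (Set.ncard_le_ncard hsub (hfin.union hfin2)).trans (Set.ncard_union_le _ _)
  have h5 : (({t : ℕ | t ∈ s N ∧ Tgt (f t)}.ncard : ℕ) : ℝ) ≤
      (({t : ℕ | t ∈ s N ∧ 1 ≤ f t ∧ Tgt (f t)}.ncard : ℕ) : ℝ) +
        (({t : ℕ | t ∈ s N ∧ ((f t : ℕ) : ℤ) = 0}.ncard : ℕ) : ℝ) := by exact_mod_cast h4
  have h6 : (0 : ℝ) ≤ ((s N).card : ℝ) := Nat.cast_nonneg _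
  have h7 : (1 : ℝ) / 10 ^ 89 * ((s N).card : ℝ) + 1 / 10 ^ 89 * ((s N).card : ℝ) ≤
      1 / 10000 ^ 22 * ((s N).card : ℝ) := by
    rw [← add_mul]
    apply mul_le_mul_of_nonneg_right _ h6
    norm_num
  linarith

/-- **one number of points** -/
theorem one_gen {s : ℕ → Finset ℕ} {f : ℕ → ℕ} (hA : AlgSmall s (fun t => (f t : ℤ))) {n : ℕ} (hn : 10 ≤ n)
    {δ : ℝ} (hδ : 0 < δ) :
    ∀ᶠ N : ℕ in atTop, ({t : ℕ | t ∈ s N ∧ (f t = 0 ∨ ¬ Pool.Agent.N141.SG.Ex n (f t))}.ncard : ℝ) ≤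
      (Pool.Agent.N141.SG.badU n + δ) * ((s N).card : ℝ) := by
  filter_upwards [one_seq hn hA (δ := δ / 2) (by positivity), few_zero hA (δ := δ / 2) (by positivity)] with N h2 h3
  have hfin : {t : ℕ | t ∈ s N ∧ ∃ m : ℕ, 1 ≤ m ∧ (m : ℤ) = (f t : ℕ) ∧ ¬ Pool.Agent.N141.SG.Ex n m}.Finite :=
    (Finset.finite_toSet (s N)).subset fun n hn => hn.1
  have hfin2 : {t : ℕ | t ∈ s N ∧ ((f t : ℕ) : ℤ) = 0}.Finite :=
    (Finset.finite_toSet (s N)).subset fun n hn => hn.1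
  have hsub : {t : ℕ | t ∈ s N ∧ (f t = 0 ∨ ¬ Pool.Agent.N141.SG.Ex n (f t))} ⊆
      {t : ℕ | t ∈ s N ∧ ∃ m : ℕ, 1 ≤ m ∧ (m : ℤ) = (f t : ℕ) ∧ ¬ Pool.Agent.N141.SG.Ex n m} ∪
        {t : ℕ | t ∈ s N ∧ ((f t : ℕ) : ℤ) = 0} := by
    rintro t ⟨h4, h5⟩
    rcases Nat.eq_zero_or_pos (f t) with h6 | h6
    · right
      exact ⟨h4, by rw [h6]; rfl⟩
    · left
      exact ⟨h4, f t, h6, rfl, h5.resolve_left (by omega)⟩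
  have h4 := (Set.ncard_le_ncard hsub (hfin.union hfin2)).trans (Set.ncard_union_le _ _)
  have h5 : (({t : ℕ | t ∈ s N ∧ (f t = 0 ∨ ¬ Pool.Agent.N141.SG.Ex n (f t))}.ncard : ℕ) : ℝ) ≤
      (({t : ℕ | t ∈ s N ∧ ∃ m : ℕ, 1 ≤ m ∧ (m : ℤ) = (f t : ℕ) ∧ ¬ Pool.Agent.N141.SG.Ex n m}.ncard : ℕ) : ℝ) +
        (({t : ℕ | t ∈ s N ∧ ((f t : ℕ) : ℤ) = 0}.ncard : ℕ) : ℝ) := by exact_mod_cast h4
  linarith

/-- **near-uniform vectors** -/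
theorem near_gen {s : ℕ → Finset ℕ} {f : ℕ → ℕ} (hA : AlgSmall s (fun t => (f t : ℤ))) {n : ℕ} (hn : 10 ≤ n)
    {δ : ℝ} (hδ : 0 < δ) :
    ∀ᶠ N : ℕ in atTop, ({t : ℕ | t ∈ s N ∧ (f t = 0 ∨ ¬ Pool.Agent.N141.SG.GoodN n (f t))}.ncard : ℝ) ≤
      (Pool.Agent.N141.SG.badN n + δ) * ((s N).card : ℝ) := by
  filter_upwards [near_seq hn hA (δ := δ / 2) (by positivity), few_zero hA (δ := δ / 2) (by positivity)] with N h2 h3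
  have hfin : {t : ℕ | t ∈ s N ∧ ∃ m : ℕ, 1 ≤ m ∧ (m : ℤ) = (f t : ℕ) ∧ ¬ Pool.Agent.N141.SG.GoodN n m}.Finite :=
    (Finset.finite_toSet (s N)).subset fun n hn => hn.1
  have hfin2 : {t : ℕ | t ∈ s N ∧ ((f t : ℕ) : ℤ) = 0}.Finite :=
    (Finset.finite_toSet (s N)).subset fun n hn => hn.1
  have hsub : {t : ℕ | t ∈ s N ∧ (f t = 0 ∨ ¬ Pool.Agent.N141.SG.GoodN n (f t))} ⊆
      {t : ℕ | t ∈ s N ∧ ∃ m : ℕ, 1 ≤ m ∧ (m : ℤ) = (f t : ℕ) ∧ ¬ Pool.Agent.N141.SG.GoodN n m} ∪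
        {t : ℕ | t ∈ s N ∧ ((f t : ℕ) : ℤ) = 0} := by
    rintro t ⟨h4, h5⟩
    rcases Nat.eq_zero_or_pos (f t) with h6 | h6
    · right
      exact ⟨h4, by rw [h6]; rfl⟩
    · left
      exact ⟨h4, f t, h6, rfl, h5.resolve_left (by omega)⟩
  have h4 := (Set.ncard_le_ncard hsub (hfin.union hfin2)).trans (Set.ncard_union_le _ _)
  have h5 : (({t : ℕ | t ∈ s N ∧ (f t = 0 ∨ ¬ Pool.Agent.N141.SG.GoodN n (f t))}.ncard : ℕ) : ℝ) ≤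
      (({t : ℕ | t ∈ s N ∧ ∃ m : ℕ, 1 ≤ m ∧ (m : ℤ) = (f t : ℕ) ∧ ¬ Pool.Agent.N141.SG.GoodN n m}.ncard : ℕ) : ℝ) +
        (({t : ℕ | t ∈ s N ∧ ((f t : ℕ) : ℤ) = 0}.ncard : ℕ) : ℝ) := by exact_mod_cast h4
  linarith

theorem tgt_win {f : ℕ → ℕ} (hf : PL f) {ρ : ℝ} (hρ : 0 < ρ) : ∀ᶠ N : ℕ in atTop,
    1 / 10 ^ 89 * ((⌊ρ * N⌋₊ : ℕ) : ℝ) ≤ ({t : ℕ | t ∈ win ρ N ∧ 1 ≤ f t ∧ Tgt (f t)}.ncard : ℝ) := by
  filter_upwards [tgt_gen (algSmall_win hf hρ)] with N h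
  rwa [card_win] at h

theorem one_win {f : ℕ → ℕ} (hf : PL f) {ρ : ℝ} (hρ : 0 < ρ) {n : ℕ} (hn : 10 ≤ n) {δ : ℝ} (hδ : 0 < δ) :
    ∀ᶠ N : ℕ in atTop, ({t : ℕ | t ∈ win ρ N ∧ (f t = 0 ∨ ¬ Pool.Agent.N141.SG.Ex n (f t))}.ncard : ℝ) ≤
      (Pool.Agent.N141.SG.badU n + δ) * ((⌊ρ * N⌋₊ : ℕ) : ℝ) := by
  filter_upwards [one_gen (algSmall_win hf hρ) hn hδ] with N h
  rwa [card_win] at h

theorem near_win {f : ℕ → ℕ} (hf : PL f) {ρ : ℝ} (hρ : 0 < ρ) {n : ℕ} (hn : 10 ≤ n) {δ : ℝ} (hδ : 0 < δ) :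
    ∀ᶠ N : ℕ in atTop, ({t : ℕ | t ∈ win ρ N ∧ (f t = 0 ∨ ¬ Pool.Agent.N141.SG.GoodN n (f t))}.ncard : ℝ) ≤
      (Pool.Agent.N141.SG.badN n + δ) * ((⌊ρ * N⌋₊ : ℕ) : ℝ) := by
  filter_upwards [near_gen (algSmall_win hf hρ) hn hδ] with N h
  rwa [card_win] at h

end Pool.Agent.V8H12.AM
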