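import Pool.Agent.N141.SG.Seq5

set_option autoImplicit false

/-! Numbers with restricted digits (helper12). -/

namespace Pool.Agent.V8H12.AM

open Finset Filter
open Pool.Agent.H469R2.NK (e norm_e e_add)
open Pool.Agent.N141.SG (SmallTo AlgSmall)

/-- the numbers `∑ a_j Q ^ j`, `j < k`, with digits `a_j ∈ D j` -/
def dig (Q : ℕ) (D : ℕ → Finset ℕ) : ℕ → Finset ℕ
  | 0 => {0}
  | k + 1 => (dig Q D k ×ˢ D k).image fun x => x.1 + x.2 * Q ^ k

lemma dig_lt {Q : ℕ} {D : ℕ → Finset ℕ} (hD : ∀ j, ∀ a ∈ D j, a < Q) : ∀ k, ∀ m ∈ dig Q D k, m < Q ^ k := by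
  intro k
  induction k with
  | zero =>
    intro m hm
    simp only [dig, mem_singleton] at hm
    rw [hm]
    simp
  | succ k ih =>
    intro m hm
    simp only [dig, mem_image, mem_product] at hm
    obtain ⟨⟨x, a⟩, ⟨h1, h2⟩, rfl⟩ := hm
    have h3 := ih x h1
    have h4 := hD k a h2
    calc x + a * Q ^ k < Q ^ k + a * Q ^ k := Nat.add_lt_add_right h3 _
      _ = (a + 1) * Q ^ k := by ring
      _ ≤ Q * Q ^ k := Nat.mul_le_mul_right _ h4
      _ = Q ^ (k + 1) := by ring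

lemma dig_inj {Q : ℕ} {D : ℕ → Finset ℕ} (hD : ∀ j, ∀ a ∈ D j, a < Q) (k : ℕ) :
    Set.InjOn (fun x : ℕ × ℕ => x.1 + x.2 * Q ^ k) ((dig Q D k ×ˢ D k : Finset (ℕ × ℕ)) : Set (ℕ × ℕ)) := by
  rintro ⟨x, a⟩ hx ⟨y, b⟩ hy h
  rw [mem_coe, mem_product] at hx hy
  have h1 := dig_lt hD k x hx.1
  have h2 := dig_lt hD k y hy.1
  have h3 : x + a * Q ^ k = y + b * Q ^ k := h
  have hQ : 0 < Q ^ k := lt_of_le_of_lt (Nat.zero_le _) h1
  have h4 : (x + a * Q ^ k) % Q ^ k = (y + b * Q ^ k) % Q ^ k := by rw [h3]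
  rw [Nat.add_mul_mod_self_right, Nat.add_mul_mod_self_right, Nat.mod_eq_of_lt h1, Nat.mod_eq_of_lt h2] at h4
  subst h4
  have h5 : a * Q ^ k = b * Q ^ k := by omega
  have h6 := Nat.eq_of_mul_eq_mul_right hQ h5
  rw [h6]

lemma card_dig {Q : ℕ} {D : ℕ → Finset ℕ} (hD : ∀ j, ∀ a ∈ D j, a < Q) (k : ℕ) :
    (dig Q D (k + 1)).card = (dig Q D k).card * (D k).card := by
  show ((dig Q D k ×ˢ D k).image fun x => x.1 + x.2 * Q ^ k).card = _
  rw [card_image_of_injOn (dig_inj hD k), card_product]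

lemma sum_dig {Q : ℕ} {D : ℕ → Finset ℕ} (hD : ∀ j, ∀ a ∈ D j, a < Q) (θ : ℝ) (k : ℕ) :
    ∑ m ∈ dig Q D (k + 1), e (θ * m) = (∑ m ∈ dig Q D k, e (θ * m)) * ∑ a ∈ D k, e (θ * Q ^ k * a) := by
  show ∑ m ∈ (dig Q D k ×ˢ D k).image fun x => x.1 + x.2 * Q ^ k, e (θ * m) = _
  rw [sum_image (dig_inj hD k), sum_product, sum_mul]
  refine sum_congr rfl fun x _ => ?_
  rw [mul_sum]
  refine sum_congr rfl fun a _ => ?_
  rw [← e_add]
  congr 1
  push_cast
  ring

lemma factor_le (D : Finset ℕ) (x : ℝ) : ‖∑ a ∈ D, e (x * a)‖ ≤ D.card := by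
  refine (norm_sum_le _ _).trans (le_of_eq ?_)
  rw [sum_congr rfl fun a _ => norm_e _, sum_const, nsmul_eq_mul, mul_one]

lemma e_int (y : ℝ) (n : ℤ) : e (y + n) = e y := by
  unfold Pool.Agent.H469R2.NK.e
  rw [Complex.exp_eq_exp_iff_exists_int]
  refine ⟨n, ?_⟩
  push_cast
  ring

lemma one_add_e {η : ℝ} (hη : 0 ≤ η) (hη1 : η ≤ 1 / 2) {y : ℝ} (h : ∀ n : ℤ, η ≤ |y - n|) :
    ‖1 + e y‖ ≤ 2 * Real.cos (Real.pi * η) := by
  obtain ⟨x, hx⟩ : ∃ x : ℝ, x = y - round y := ⟨_, rfl⟩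
  have hx1 : |x| ≤ 1 / 2 := by rw [hx]; exact abs_sub_round y
  have hx2 : η ≤ |x| := by rw [hx]; exact h _
  have e1 : e y = e x := by
    have h2 : y = x + ((round y : ℤ) : ℝ) := by rw [hx]; ring
    calc e y = e (x + ((round y : ℤ) : ℝ)) := by rw [← h2]
      _ = e x := e_int _ _
  have e2 : (1 : ℂ) + e x = e (x / 2) * ((2 * Real.cos (Real.pi * x) : ℝ) : ℂ) := by
    have h1 : e (x / 2) * e (-(x / 2)) = 1 := by
      rw [← e_add, add_neg_cancel]
      unfold Pool.Agent.H469R2.NK.e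
      simp
    have h2 : e (x / 2) * e (x / 2) = e x := by
      rw [← e_add]
      congr 1
      ring
    have h3 : ((2 * Real.cos (Real.pi * x) : ℝ) : ℂ) = e (x / 2) + e (-(x / 2)) := by
      unfold Pool.Agent.H469R2.NK.e
      push_cast
      rw [Complex.two_cos]
      congr 1
      · congr 1
        ring
      · congr 1
        ring
    rw [h3, mul_add, h1, h2]
    ring
  rw [e1, e2, norm_mul, norm_e, one_mul, Complex.norm_real, Real.norm_eq_abs]
  have hpi := Real.pi_pos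
  have h4 : Real.cos (Real.pi * x) = Real.cos (Real.pi * |x|) := by
    rcases abs_choice x with h5 | h5
    · rw [h5]
    · rw [h5, mul_neg, Real.cos_neg]
  have h5 : 0 ≤ Real.cos (Real.pi * |x|) := by
    apply Real.cos_nonneg_of_neg_pi_div_two_le_of_le
    · have := abs_nonneg x
      have : 0 ≤ Real.pi * |x| := by positivity
      linarith
    · nlinarith
  have h6 : Real.cos (Real.pi * |x|) ≤ Real.cos (Real.pi * η) := by
    apply Real.cos_le_cos_of_nonneg_of_le_pi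
    · positivity
    · nlinarith
    · exact mul_le_mul_of_nonneg_left hx2 hpi.le
  rw [h4, abs_of_nonneg (by linarith)]
  linarith

/-- the factors at which two digits are separated -/
lemma factor_gap {D : Finset ℕ} {a b : ℕ} (ha : a ∈ D) (hb : b ∈ D) (hab : a < b) {η x : ℝ} (hη : 0 ≤ η)
    (hη1 : η ≤ 1 / 2) (h : ∀ n : ℤ, η ≤ |x * ((b : ℝ) - a) - n|) :
    ‖∑ c ∈ D, e (x * c)‖ ≤ D.card - (2 - 2 * Real.cos (Real.pi * η)) := by
  classical
  have h1 := one_add_e hη hη1 h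
  have hb' : b ∈ D.erase a := mem_erase.2 ⟨hab.ne', hb⟩
  rw [← add_sum_erase D _ ha, ← add_sum_erase (D.erase a) _ hb']
  have h2 : e (x * a) + (e (x * b) + ∑ c ∈ (D.erase a).erase b, e (x * c)) =
      e (x * a) * (1 + e (x * ((b : ℝ) - a))) + ∑ c ∈ (D.erase a).erase b, e (x * c) := by
    rw [mul_add, ← e_add, mul_one, ← add_assoc]
    congr 3
    ring
  rw [h2]
  have h3 := factor_le ((D.erase a).erase b) x
  have h4 : (((D.erase a).erase b).card : ℝ) = D.card - 2 := by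
    rw [card_erase_of_mem hb', card_erase_of_mem ha]
    have h5 : 1 < D.card := Finset.one_lt_card.2 ⟨a, ha, b, hb, hab.ne⟩
    have h6 : D.card - 1 - 1 + 2 = D.card := by omega
    have h7 : ((D.card - 1 - 1 : ℕ) : ℝ) + 2 = D.card := by exact_mod_cast h6
    linarith
  refine (norm_add_le _ _).trans ?_
  rw [norm_mul, norm_e, one_mul]
  linarith

/-- the multiples `y Q ^ j` are not close to integers again and again -/
lemma frac_big {Q : ℕ} (hQ : 2 ≤ Q) {y : ℝ} (hy : Irrational y) (J : ℕ) :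
    ∃ j : ℕ, J ≤ j ∧ ∀ n : ℤ, 1 / (2 * (Q : ℝ)) ≤ |y * Q ^ j - n| := by
  by_contra hcon
  push Not at hcon
  have hQ' : (2 : ℝ) ≤ Q := by exact_mod_cast hQ
  have hQ0 : (0 : ℝ) < Q := by linarith
  have hq4 : 1 / (2 * (Q : ℝ)) ≤ 1 / 4 := one_div_le_one_div_of_le (by norm_num) (by linarith)
  obtain ⟨n, hn⟩ := hcon J le_rfl
  have key : ∀ i : ℕ, |y * Q ^ (J + i) - ((n * (Q : ℤ) ^ i : ℤ) : ℝ)| < 1 / (2 * (Q : ℝ)) := by
    intro i
    induction i with
    | zero => simpa using hn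
    | succ i ih =>
      obtain ⟨m, hm⟩ := hcon (J + i + 1) (by omega)
      have e1 : y * (Q : ℝ) ^ (J + i + 1) - ((n * (Q : ℤ) ^ (i + 1) : ℤ) : ℝ) =
          Q * (y * Q ^ (J + i) - ((n * (Q : ℤ) ^ i : ℤ) : ℝ)) := by
        push_cast
        ring
      have h1 : |y * (Q : ℝ) ^ (J + i + 1) - ((n * (Q : ℤ) ^ (i + 1) : ℤ) : ℝ)| < 1 / 2 := by
        rw [e1, abs_mul, abs_of_pos hQ0]
        calc (Q : ℝ) * |y * Q ^ (J + i) - ((n * (Q : ℤ) ^ i : ℤ) : ℝ)| < Q * (1 / (2 * (Q : ℝ))) :=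
              mul_lt_mul_of_pos_left ih hQ0
          _ = 1 / 2 := by field_simp
      have h2 : m = n * (Q : ℤ) ^ (i + 1) := by
        have h3 : |((m - n * (Q : ℤ) ^ (i + 1) : ℤ) : ℝ)| < 1 := by
          have e2 : ((m - n * (Q : ℤ) ^ (i + 1) : ℤ) : ℝ) =
              (y * (Q : ℝ) ^ (J + i + 1) - ((n * (Q : ℤ) ^ (i + 1) : ℤ) : ℝ)) - (y * Q ^ (J + i + 1) - m) := by
            push_cast
            ring
          rw [e2]
          refine (abs_sub _ _).trans_lt ?_
          linarith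
        have h4 : |m - n * (Q : ℤ) ^ (i + 1)| < 1 := by exact_mod_cast h3
        have := Int.abs_lt_one_iff.1 h4
        omega
      rw [← h2]
      have e3 : J + (i + 1) = J + i + 1 := by ring
      rw [e3]
      exact hm
  have hne : 0 < |y * (Q : ℝ) ^ J - n| := by
    rw [abs_pos, sub_ne_zero]
    intro h0
    have h1 : Irrational (y * ((Q ^ J : ℕ) : ℝ)) := hy.mul_natCast (by positivity)
    apply h1
    refine ⟨n, ?_⟩
    push_cast
    rw [h0]
  obtain ⟨i, hi⟩ := pow_unbounded_of_one_lt (1 / |y * (Q : ℝ) ^ J - n|) (show (1 : ℝ) < Q by linarith)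
  have h1 := key i
  have e1 : y * (Q : ℝ) ^ (J + i) - ((n * (Q : ℤ) ^ i : ℤ) : ℝ) = Q ^ i * (y * Q ^ J - n) := by
    push_cast
    ring
  rw [e1, abs_mul, abs_of_pos (by positivity)] at h1
  rw [div_lt_iff₀ hne] at hi
  linarith

/-- **Restricted digits.** -/
theorem algSmall_dig {Q : ℕ} {D : ℕ → Finset ℕ} (hD : ∀ j, ∀ a ∈ D j, a < Q) (hD2 : ∀ j, 2 ≤ (D j).card) :
    AlgSmall (dig Q D) (fun t => ((t : ℕ) : ℤ)) := by
  intro θ hθ _
  have hQ : 2 ≤ Q := by
    have h1 : (D 0).card ≤ Q := by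
      have : D 0 ⊆ range Q := fun a ha => mem_range.2 (hD 0 a ha)
      simpa using card_le_card this
    exact (hD2 0).trans h1
  have hQ' : (2 : ℝ) ≤ Q := by exact_mod_cast hQ
  have hQ0 : (0 : ℝ) < Q := by linarith
  obtain ⟨L, hL⟩ : ∃ L : ℕ, L = Q.factorial := ⟨_, rfl⟩
  have hL1 : 1 ≤ L := by rw [hL]; exact Nat.factorial_pos Q
  have hL1' : (1 : ℝ) ≤ L := by exact_mod_cast hL1
  obtain ⟨η, hη⟩ : ∃ η : ℝ, η = 1 / (2 * Q) / L := ⟨_, rfl⟩
  have hη0 : 0 < η := by rw [hη]; positivity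
  have hη1 : η ≤ 1 / 2 := by
    rw [hη, div_div]
    apply one_div_le_one_div_of_le (by norm_num)
    nlinarith
  obtain ⟨c, hc⟩ : ∃ c : ℝ, c = 2 - 2 * Real.cos (Real.pi * η) := ⟨_, rfl⟩
  have hc0 : 0 < c := by
    have h1 : Real.cos (Real.pi * η) < 1 := by
      have h2 : Real.cos (Real.pi * η) < Real.cos 0 := by
        apply Real.cos_lt_cos_of_nonneg_of_le_pi le_rfl
        · nlinarith [Real.pi_pos]
        · exact mul_pos Real.pi_pos hη0
      rwa [Real.cos_zero] at h2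
    rw [hc]
    linarith
  have hc2 : c ≤ 2 := by
    have h1 : 0 ≤ Real.cos (Real.pi * η) := by
      apply Real.cos_nonneg_of_neg_pi_div_two_le_of_le
      · have : 0 ≤ Real.pi * η := mul_nonneg Real.pi_pos.le hη0.le
        linarith [Real.pi_pos]
      · nlinarith [Real.pi_pos]
    rw [hc]
    linarith
  -- cards
  have hcard : ∀ j, ((D j).card : ℝ) ≤ Q := by
    intro j
    have h1 : D j ⊆ range Q := fun a ha => mem_range.2 (hD j a ha)
    have h2 := card_le_card h1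
    rw [card_range] at h2
    exact_mod_cast h2
  obtain ⟨q, hq⟩ : ∃ q : ℝ, q = 1 - c / Q := ⟨_, rfl⟩
  have hq0 : 0 ≤ q := by
    rw [hq, sub_nonneg, div_le_one hQ0]
    linarith
  have hq1 : q < 1 := by
    rw [hq]
    have : 0 < c / Q := by positivity
    linarith
  have hfac : ∀ J : ℕ, ∃ j, J ≤ j ∧ ‖∑ a ∈ D j, e (θ * Q ^ j * a)‖ ≤ q * (D j).card := by
    intro J
    have hirr : Irrational (θ * (L : ℝ)) := by
      have := hθ.mul_natCast (show L ≠ 0 by omega)
      exact this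
    obtain ⟨j, hj, hj2⟩ := frac_big hQ hirr J
    refine ⟨j, hj, ?_⟩
    obtain ⟨a, ha, b, hb, hab⟩ := Finset.one_lt_card.1 (lt_of_lt_of_le (by norm_num) (hD2 j))
    have main : ∀ a b : ℕ, a ∈ D j → b ∈ D j → a < b → ‖∑ a ∈ D j, e (θ * Q ^ j * a)‖ ≤ q * (D j).card := by
      intro a b ha hb hab
      have hbQ := hD j b hb
      obtain ⟨L', hL'⟩ : (b - a) ∣ L := by
        rw [hL]
        exact Nat.dvd_factorial (by omega) (by omega)
      have hL'0 : (0 : ℝ) < L' := by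
        have : L' ≠ 0 := by
          rintro rfl
          rw [mul_zero] at hL'
          omega
        exact_mod_cast Nat.pos_of_ne_zero this
      have hL'L : (L' : ℝ) ≤ L := by
        have : L' ≤ L := by
          rw [hL']
          exact Nat.le_mul_of_pos_left _ (by omega)
        exact_mod_cast this
      have hLr : (L : ℝ) = ((b : ℝ) - a) * L' := by
        rw [hL']
        push_cast [Nat.cast_sub hab.le]
        ring
      have h1 := factor_gap ha hb hab (x := θ * Q ^ j) hη0.le hη1 (fun n => by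
        have h2 := hj2 (L' * n)
        have e1 : θ * (L : ℝ) * Q ^ j - ((L' * n : ℤ) : ℝ) = L' * (θ * Q ^ j * ((b : ℝ) - a) - n) := by
          rw [hLr]
          push_cast
          ring
        rw [e1, abs_mul, abs_of_pos hL'0] at h2
        rw [hη]
        rw [div_le_iff₀ (by linarith)]
        have h3 : (L' : ℝ) * |θ * Q ^ j * ((b : ℝ) - a) - n| ≤ L * |θ * Q ^ j * ((b : ℝ) - a) - n| :=
          mul_le_mul_of_nonneg_right hL'L (abs_nonneg _)
        linarith)
      rw [← hc] at h1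
      refine h1.trans ?_
      have h4 := hcard j
      have h5 : c / Q * (D j).card ≤ c := by
        rw [div_mul_eq_mul_div, div_le_iff₀ hQ0]
        exact mul_le_mul_of_nonneg_left h4 hc0.le
      rw [hq]
      linarith
    rcases lt_or_gt_of_ne hab with h | h
    · exact main a b ha hb h
    · exact main b a hb ha h
  -- the ratio
  have hmono : ∀ (r : ℝ) (k : ℕ), 0 ≤ r → ‖∑ m ∈ dig Q D k, e (θ * m)‖ ≤ r * (dig Q D k).card → ∀ k', k ≤ k' →
      ‖∑ m ∈ dig Q D k', e (θ * m)‖ ≤ r * (dig Q D k').card := by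
    intro r k hr h k' hk'
    induction k', hk' using Nat.le_induction with
    | base => exact h
    | succ k' _ ih =>
      rw [sum_dig hD, card_dig hD, norm_mul]
      push_cast
      calc _ ≤ (r * (dig Q D k').card) * (D k').card :=
            mul_le_mul ih (factor_le _ _) (norm_nonneg _) (by positivity)
        _ = _ := by ring
  have hpow : ∀ n : ℕ, ∃ k, ‖∑ m ∈ dig Q D k, e (θ * m)‖ ≤ q ^ n * (dig Q D k).card := by
    intro n
    induction n with
    | zero =>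
      refine ⟨0, ?_⟩
      rw [pow_zero, one_mul]
      refine (norm_sum_le _ _).trans (le_of_eq ?_)
      rw [sum_congr rfl fun a _ => norm_e _, sum_const, nsmul_eq_mul, mul_one]
    | succ n ih =>
      obtain ⟨k, hk⟩ := ih
      obtain ⟨j, hj, hj2⟩ := hfac k
      refine ⟨j + 1, ?_⟩
      have h1 := hmono (q ^ n) k (by positivity) hk j hj
      rw [sum_dig hD, card_dig hD, norm_mul]
      push_cast
      calc _ ≤ (q ^ n * (dig Q D j).card) * (q * (D j).card) :=
            mul_le_mul h1 hj2 (norm_nonneg _) (by positivity)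
        _ = _ := by ring
  intro ε hε
  obtain ⟨n, hn⟩ := exists_pow_lt_of_lt_one hε hq1
  obtain ⟨k, hk⟩ := hpow n
  filter_upwards [eventually_ge_atTop k] with K hK
  have h1 := hmono ε k hε.le (hk.trans (mul_le_mul_of_nonneg_right hn.le (Nat.cast_nonneg _))) K hK
  have e1 : ∑ t ∈ dig Q D K, e (θ * (((t : ℕ) : ℤ) : ℝ)) = ∑ m ∈ dig Q D K, e (θ * m) :=
    sum_congr rfl fun t _ => by rw [Int.cast_natCast]
  rw [e1]
  exact h1

end Pool.Agent.V8H12.AM
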