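import Mathlib

set_option autoImplicit false

/-! Multipliers `w` such that `w θ` is close to a rational number with a small denominator, `θ` algebraic (helper12). -/

namespace Pool.Agent.V8H12.AM

open Finset Classical

/-- the small multiples of `α` are not very close to integers -/
def D1 (ε Z α : ℝ) : Prop := ∀ h : ℕ, 1 ≤ h → (h : ℝ) ≤ Z ^ ε → ∀ m : ℤ, Z ^ (-(1 - ε)) ≤ |(h : ℝ) * α - m|

lemma D1.mono {ε ε' y Z α : ℝ} (h : D1 ε' y α) (hy : 1 ≤ y) (hyZ : y ≤ Z) (hZ : Z ^ ε ≤ y ^ ε') (hε : ε ≤ ε')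
    (hε1 : ε ≤ 1) : D1 ε Z α := by
  intro n hn hnZ m
  refine le_trans ?_ (h n hn (hnZ.trans hZ) m)
  calc Z ^ (-(1 - ε)) ≤ y ^ (-(1 - ε)) := Real.rpow_le_rpow_of_nonpos (by linarith) hyZ (by linarith)
    _ ≤ y ^ (-(1 - ε')) := Real.rpow_le_rpow_of_exponent_le hy (by linarith)

/-- sets with gaps -/
lemma card_gap {g : ℝ} (S : Finset ℕ) : (∀ x ∈ S, g ≤ (x : ℝ)) → (∀ x ∈ S, ∀ y ∈ S, x < y → g ≤ (y : ℝ) - x) →
    ∀ T : ℝ, (∀ x ∈ S, (x : ℝ) ≤ T) → 0 ≤ T → (S.card : ℝ) * g ≤ T := by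
  induction S using Finset.induction_on_max with
  | empty =>
    intro _ _ T _ hT
    simpa using hT
  | insert a s has ih =>
    intro h1 h2 T h3 hT
    have ha : a ∉ s := fun h => lt_irrefl a (has a h)
    rw [card_insert_of_notMem ha]
    have h4 := ih (fun x hx => h1 x (mem_insert_of_mem hx))
      (fun x hx y hy => h2 x (mem_insert_of_mem hx) y (mem_insert_of_mem hy)) ((a : ℝ) - g)
      (fun x hx => by
        have := h2 x (mem_insert_of_mem hx) a (mem_insert_self a s) (has x hx)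
        linarith) (by
        have := h1 a (mem_insert_self a s)
        linarith)
    have h5 := h3 a (mem_insert_self a s)
    push_cast
    linarith

/-- Liouville's condition -/
def Lio (τ c θ : ℝ) : Prop := ∀ n : ℕ, 1 ≤ n → ∀ m : ℤ, c * (n : ℝ) ^ (-τ) ≤ |(n : ℝ) * θ - m|

lemma large_of_close {τ c θ δ : ℝ} (hτ : 1 ≤ τ) (hc : 0 < c) (hL : Lio τ c θ) (hδ : 0 < δ) {n : ℕ} (hn : 1 ≤ n)
    {m : ℤ} (h : |(n : ℝ) * θ - m| ≤ 2 * δ) : (c / (2 * δ)) ^ (1 / τ) ≤ n := by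
  have h1 := (hL n hn m).trans h
  have hn0 : (0 : ℝ) < n := by exact_mod_cast hn
  rw [Real.rpow_neg hn0.le] at h1
  have h2 : (0 : ℝ) < (n : ℝ) ^ τ := by positivity
  have h3 : c / (2 * δ) ≤ (n : ℝ) ^ τ := by
    rw [div_le_iff₀ (by linarith)]
    rw [← div_eq_mul_inv, div_le_iff₀ h2] at h1
    linarith
  calc (c / (2 * δ)) ^ (1 / τ) ≤ ((n : ℝ) ^ τ) ^ (1 / τ) := Real.rpow_le_rpow (by positivity) h3 (by positivity)
    _ = n := by
      rw [← Real.rpow_mul hn0.le, mul_one_div_cancel (by linarith), Real.rpow_one]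

/-- the number of the bad multipliers -/
theorem bad_count {τ c θ ε : ℝ} (hτ : 1 ≤ τ) (hc : 0 < c) (hL : Lio τ c θ) (hε : 0 < ε) (hε1 : ε ≤ 1 / (8 * τ)) :
    ∀ Z : ℝ, 1 ≤ Z → ∀ T : ℕ, (((Icc 1 T).filter (fun w : ℕ => ¬ D1 ε Z ((w : ℝ) * θ))).card : ℝ) ≤
      (2 / c) ^ (1 / τ) * T * Z ^ (-(1 / (2 * τ))) := by
  intro Z hZ T
  have hZ0 : 0 < Z := by linarith
  obtain ⟨δ, hδ⟩ : ∃ δ : ℝ, δ = Z ^ (-(1 - ε)) := ⟨_, rfl⟩
  have hδ0 : 0 < δ := by rw [hδ]; positivity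
  obtain ⟨G, hG⟩ : ∃ G : ℝ, G = (c / (2 * δ)) ^ (1 / τ) := ⟨_, rfl⟩
  have hG0 : 0 < G := by rw [hG]; positivity
  obtain ⟨S, hS⟩ : ∃ S : ℕ → Finset ℕ, S = fun h : ℕ => (Icc 1 T).filter (fun w : ℕ =>
    ∃ m : ℤ, |((h * w : ℕ) : ℝ) * θ - m| < δ) := ⟨_, rfl⟩
  have hsub : (Icc 1 T).filter (fun w : ℕ => ¬ D1 ε Z ((w : ℝ) * θ)) ⊆ (Icc 1 ⌊Z ^ ε⌋₊).biUnion S := by
    intro w hw
    rw [mem_filter] at hw
    obtain ⟨h1, h2⟩ := hw
    unfold D1 at h2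
    push Not at h2
    obtain ⟨h, h3, h4, m, h5⟩ := h2
    rw [mem_biUnion]
    refine ⟨h, mem_Icc.2 ⟨h3, Nat.le_floor h4⟩, ?_⟩
    rw [hS, mem_filter]
    refine ⟨h1, m, ?_⟩
    rw [hδ]
    push_cast
    rw [mul_assoc]
    exact h5
  have hcard : ∀ h ∈ Icc 1 ⌊Z ^ ε⌋₊, ((S h).card : ℝ) ≤ T * Z ^ ε / G := by
    intro h hh
    rw [mem_Icc] at hh
    have hh0 : (0 : ℝ) < h := by exact_mod_cast hh.1
    have hhZ : (h : ℝ) ≤ Z ^ ε := (Nat.le_floor_iff (by positivity)).1 hh.2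
    have key := card_gap (g := G / h) (S h) (by
      intro w hw
      rw [hS, mem_filter, mem_Icc] at hw
      obtain ⟨⟨h1, _⟩, m, h2⟩ := hw
      have h3 := large_of_close hτ hc hL hδ0 (n := h * w) (Nat.mul_pos hh.1 h1) (m := m) (by linarith)
      rw [← hG] at h3
      rw [div_le_iff₀ hh0]
      push_cast at h3
      linarith) (by
      intro x hx y hy hxy
      rw [hS, mem_filter, mem_Icc] at hx hy
      obtain ⟨⟨_, _⟩, m, h2⟩ := hx
      obtain ⟨⟨_, _⟩, m', h2'⟩ := hy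
      have h3 := large_of_close hτ hc hL hδ0 (n := h * (y - x)) (Nat.mul_pos hh.1 (by omega)) (m := m' - m) (by
        have e1 : ((h * (y - x) : ℕ) : ℝ) * θ - ((m' - m : ℤ) : ℝ) =
            (((h * y : ℕ) : ℝ) * θ - m') - (((h * x : ℕ) : ℝ) * θ - m) := by
          rw [Nat.cast_mul, Nat.cast_sub hxy.le]
          push_cast
          ring
        rw [e1]
        refine (abs_sub _ _).trans ?_
        linarith)
      rw [← hG] at h3
      rw [div_le_iff₀ hh0]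
      rw [Nat.cast_mul, Nat.cast_sub hxy.le] at h3
      linarith) T (by
      intro x hx
      rw [hS, mem_filter, mem_Icc] at hx
      exact_mod_cast hx.1.2) (Nat.cast_nonneg _)
    have h4 : ((S h).card : ℝ) ≤ T * h / G := by
      rw [le_div_iff₀ hG0]
      have h5 : ((S h).card : ℝ) * (G / h) * h ≤ T * h := mul_le_mul_of_nonneg_right key hh0.le
      have h6 : ((S h).card : ℝ) * (G / h) * h = (S h).card * G := by field_simp
      linarith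
    refine h4.trans ?_
    gcongr
  have h1 : (((Icc 1 T).filter (fun w : ℕ => ¬ D1 ε Z ((w : ℝ) * θ))).card : ℝ) ≤
      ∑ h ∈ Icc 1 ⌊Z ^ ε⌋₊, ((S h).card : ℝ) := by
    have := (card_le_card hsub).trans card_biUnion_le
    exact_mod_cast this
  refine h1.trans ((sum_le_sum hcard).trans ?_)
  rw [sum_const, nsmul_eq_mul, Nat.card_Icc, Nat.add_sub_cancel]
  have hfl : ((⌊Z ^ ε⌋₊ : ℕ) : ℝ) ≤ Z ^ ε := Nat.floor_le (by positivity)
  have hGi : 1 / G = (2 / c) ^ (1 / τ) * Z ^ (-((1 - ε) / τ)) := by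
    rw [hG, one_div, ← Real.inv_rpow (by positivity), inv_div, mul_div_assoc, mul_comm 2, div_mul_eq_mul_div]
    rw [show δ * 2 / c = (2 / c) * δ by ring, Real.mul_rpow (by positivity) hδ0.le, hδ, ← Real.rpow_mul hZ0.le]
    congr 2
    ring
  calc (((⌊Z ^ ε⌋₊ : ℕ)) : ℝ) * (T * Z ^ ε / G) ≤ Z ^ ε * (T * Z ^ ε / G) := by gcongr
    _ = T * (Z ^ ε * Z ^ ε) * (1 / G) := by ring
    _ = (2 / c) ^ (1 / τ) * T * (Z ^ ε * Z ^ ε * Z ^ (-((1 - ε) / τ))) := by rw [hGi]; ring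
    _ = (2 / c) ^ (1 / τ) * T * Z ^ (ε + ε + -((1 - ε) / τ)) := by
      rw [← Real.rpow_add hZ0, ← Real.rpow_add hZ0]
    _ ≤ _ := by
      apply mul_le_mul_of_nonneg_left _ (by positivity)
      apply Real.rpow_le_rpow_of_exponent_le hZ
      have hτ0 : 0 < τ := by linarith
      have h2 : ε * (8 * τ) ≤ 1 := by
        rw [le_div_iff₀ (by linarith)] at hε1
        exact hε1
      rw [show -((1 - ε) / τ) = (ε - 1) / τ by ring, show -(1 / (2 * τ)) = (-1 / 2) / τ by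
        field_simp]
      rw [← sub_nonneg]
      have h3 : (-1 / 2) / τ - (ε + ε + (ε - 1) / τ) = (1 / 2 - ε - 2 * ε * τ) / τ := by
        field_simp
        ring
      rw [h3]
      apply div_nonneg _ hτ0.le
      nlinarith

/-- the bad multipliers are large -/
lemma bad_large {τ c θ ε : ℝ} (hτ : 1 ≤ τ) (hc : 0 < c) (hL : Lio τ c θ) (hε : 0 < ε) (hε1 : ε ≤ 1 / (8 * τ))
    {Z : ℝ} (hZ : 1 ≤ Z) {w : ℕ} (hw : 1 ≤ w) (h : ¬ D1 ε Z ((w : ℝ) * θ)) :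
    Z ^ (1 / (2 * τ)) ≤ (2 / c) ^ (1 / τ) * w := by
  have h1 := bad_count hτ hc hL hε hε1 Z hZ w
  have h2 : (1 : ℝ) ≤ (((Icc 1 w).filter (fun w : ℕ => ¬ D1 ε Z ((w : ℝ) * θ))).card : ℝ) := by
    have : 0 < ((Icc 1 w).filter (fun w : ℕ => ¬ D1 ε Z ((w : ℝ) * θ))).card :=
      card_pos.2 ⟨w, mem_filter.2 ⟨mem_Icc.2 ⟨hw, le_rfl⟩, h⟩⟩
    exact_mod_cast this
  have h3 := h2.trans h1
  have hZ0 : 0 < Z := by linarith
  rw [Real.rpow_neg hZ0.le, ← div_eq_mul_inv, le_div_iff₀ (by positivity), one_mul] at h3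
  exact h3

end Pool.Agent.V8H12.AM
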