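import Pool.Agent.V8H12.AM.A
import Pool.Agent.N733.TG.H
import Pool.Agent.N733.TG.I

set_option autoImplicit false

/-! Multiplicative functions avoid the bad multipliers in the logarithmic mean (helper12). -/

namespace Pool.Agent.V8H12.AM

open Finset Classical Filter Topology
open Pool.Agent.N733.TG (LM avoid)

/-- sums of reciprocals over thin sets -/
lemma recip_sum {A : ℕ → Prop} {j₀ : ℕ} (hj : 1 ≤ j₀) (hA : ∀ T : ℕ, 2 ^ j₀ ≤ T →
    (((Icc 1 T).filter A).card : ℝ) ≤ T / Real.log T ^ 2) : ∀ J : ℕ, j₀ ≤ J →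
    ∑ m ∈ (Ico (2 ^ j₀) (2 ^ J)).filter A, (1 : ℝ) / m ≤ 5 * (1 / (j₀ : ℝ) - 1 / J) := by
  intro J hJ
  induction J, hJ using Nat.le_induction with
  | base => simp
  | succ J hJ ih =>
    have hJ0 : (0 : ℝ) < J := by exact_mod_cast (by omega : 0 < J)
    have e1 : (Ico (2 ^ j₀) (2 ^ (J + 1))).filter A =
        (Ico (2 ^ j₀) (2 ^ J)).filter A ∪ (Ico (2 ^ J) (2 ^ (J + 1))).filter A := by
      rw [← filter_union, Finset.Ico_union_Ico_eq_Ico (Nat.pow_le_pow_right (by norm_num) hJ)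
        (Nat.pow_le_pow_right (by norm_num) (by omega))]
    have hdis : Disjoint ((Ico (2 ^ j₀) (2 ^ J)).filter A) ((Ico (2 ^ J) (2 ^ (J + 1))).filter A) :=
      Finset.disjoint_filter_filter (Finset.Ico_disjoint_Ico_consecutive _ _ _)
    rw [e1, sum_union hdis]
    have h2 : ∑ m ∈ (Ico (2 ^ J) (2 ^ (J + 1))).filter A, (1 : ℝ) / m ≤ 5 / ((J : ℝ) + 1) ^ 2 := by
      have h3 : ∀ m ∈ (Ico (2 ^ J) (2 ^ (J + 1))).filter A, (1 : ℝ) / m ≤ 1 / 2 ^ J := by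
        intro m hm
        rw [mem_filter, mem_Ico] at hm
        apply one_div_le_one_div_of_le (by positivity)
        exact_mod_cast hm.1.1
      refine (sum_le_card_nsmul _ _ _ h3).trans ?_
      rw [nsmul_eq_mul]
      have h4 : (((Ico (2 ^ J) (2 ^ (J + 1))).filter A).card : ℝ) ≤
          (((Icc 1 (2 ^ (J + 1))).filter A).card : ℝ) := by
        have : ((Ico (2 ^ J) (2 ^ (J + 1))).filter A).card ≤ ((Icc 1 (2 ^ (J + 1))).filter A).card := by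
          apply card_le_card
          apply filter_subset_filter
          intro x hx
          rw [mem_Ico] at hx
          rw [mem_Icc]
          have : 0 < 2 ^ J := by positivity
          omega
        exact_mod_cast this
      have h5 := hA (2 ^ (J + 1)) (Nat.pow_le_pow_right (by norm_num) (by omega))
      push_cast at h5
      rw [Real.log_pow] at h5
      have hl := Real.log_two_gt_d9
      have h6 : (1 : ℝ) / (Real.log 2) ^ 2 ≤ 5 / 2 := by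
        rw [div_le_div_iff₀ (by positivity) (by norm_num)]
        nlinarith
      calc (((Ico (2 ^ J) (2 ^ (J + 1))).filter A).card : ℝ) * (1 / 2 ^ J)
          ≤ (2 ^ (J + 1) / (((J + 1 : ℕ) : ℝ) * Real.log 2) ^ 2) * (1 / 2 ^ J) := by
            apply mul_le_mul_of_nonneg_right (h4.trans h5) (by positivity)
        _ = 2 * (1 / (Real.log 2) ^ 2) / ((J : ℝ) + 1) ^ 2 := by
            have : Real.log 2 ≠ 0 := by positivity
            push_cast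
            field_simp
            ring
        _ ≤ 5 / ((J : ℝ) + 1) ^ 2 := by
            apply div_le_div_of_nonneg_right _ (by positivity)
            linarith
    have h3 : 1 / ((J : ℝ) + 1) ^ 2 ≤ 1 / (J : ℝ) - 1 / ((J : ℝ) + 1) := by
      rw [div_sub_div _ _ hJ0.ne' (by positivity), div_le_div_iff₀ (by positivity) (by positivity)]
      nlinarith
    have h4 : 5 / ((J : ℝ) + 1) ^ 2 = 5 * (1 / ((J : ℝ) + 1) ^ 2) := by ring
    push_cast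
    linarith

/-- the values of `b` avoid the bad multipliers in the logarithmic mean -/
def Mult (b : ℕ → ℕ) : Prop := ∀ θ : ℝ, Irrational θ → (∃ τ c : ℝ, 1 ≤ τ ∧ 0 < c ∧ Lio τ c θ) →
  ∃ ε₀ : ℝ, 0 < ε₀ ∧ ∀ ε : ℝ, 0 < ε → ε ≤ ε₀ → ∀ κ : ℝ, 0 < κ → ∀ δ : ℝ, 0 < δ → ∀ᶠ N : ℕ in atTop,
    ∑ m ∈ (Icc 1 N).filter (fun m : ℕ => ¬ D1 ε ((N : ℝ) ^ κ) ((b m : ℝ) * θ)), (1 : ℝ) / m ≤ δ

/-- for every bound `B`, there are no bad multipliers up to `B` if `N` is large -/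
lemma no_small {τ c θ ε κ : ℝ} (hτ : 1 ≤ τ) (hc : 0 < c) (hL : Lio τ c θ) (hε : 0 < ε) (hε1 : ε ≤ 1 / (8 * τ))
    (hκ : 0 < κ) (B : ℕ) : ∀ᶠ N : ℕ in atTop, ∀ w : ℕ, 1 ≤ w → w ≤ B → D1 ε ((N : ℝ) ^ κ) ((w : ℝ) * θ) := by
  have h1 : Tendsto (fun N : ℕ => ((N : ℝ) ^ κ) ^ (1 / (2 * τ))) atTop atTop :=
    (tendsto_rpow_atTop (by positivity)).comp ((tendsto_rpow_atTop hκ).comp tendsto_natCast_atTop_atTop)
  filter_upwards [h1.eventually_gt_atTop ((2 / c) ^ (1 / τ) * B), eventually_ge_atTop 1] with N hN hN1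
  intro w hw hwB
  by_contra hcon
  have hN1' : (1 : ℝ) ≤ N := by exact_mod_cast hN1
  have h2 := bad_large hτ hc hL hε hε1 (Z := (N : ℝ) ^ κ) (Real.one_le_rpow hN1' hκ.le) hw hcon
  have h3 : (w : ℝ) ≤ B := by exact_mod_cast hwB
  have h4 : (2 / c) ^ (1 / τ) * w ≤ (2 / c) ^ (1 / τ) * B := mul_le_mul_of_nonneg_left h3 (by positivity)
  linarith

/-- constants -/
theorem mult_const {B : ℕ} (hB : 1 ≤ B) : Mult (fun _ => B) := by
  rintro θ - ⟨τ, c, hτ, hc, hL⟩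
  refine ⟨1 / (8 * τ), by positivity, fun ε hε hε1 κ hκ δ hδ => ?_⟩
  filter_upwards [no_small hτ hc hL hε hε1 hκ B] with N hN
  rw [filter_false_of_mem, sum_empty]
  · exact hδ.le
  · intro m _ h
    exact h (hN B hB le_rfl)

/-- multiplicative functions -/
theorem mult_lm {f : ℕ → ℕ} (hf : LM f) : Mult f := by
  rintro θ - ⟨τ, c, hτ, hc, hL⟩
  refine ⟨1 / (8 * τ), by positivity, fun ε hε hε1 κ hκ δ hδ => ?_⟩
  obtain ⟨Cf, D, hgr⟩ := hf.growth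
  obtain ⟨C₁, hC₁⟩ : ∃ C₁ : ℕ, C₁ = max Cf 1 := ⟨_, rfl⟩
  obtain ⟨D₁, hD₁⟩ : ∃ D₁ : ℕ, D₁ = max D 1 := ⟨_, rfl⟩
  have hC1 : 1 ≤ C₁ := by rw [hC₁]; exact le_max_right _ _
  have hD1 : 1 ≤ D₁ := by rw [hD₁]; exact le_max_right _ _
  have hgr' : ∀ m : ℕ, 1 ≤ m → f m ≤ C₁ * m ^ D₁ := by
    intro m hm
    refine (hgr m hm).trans (Nat.mul_le_mul (by rw [hC₁]; exact le_max_left _ _) ?_)
    exact Nat.pow_le_pow_right hm (by rw [hD₁]; exact le_max_left _ _)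
  have hC1' : (1 : ℝ) ≤ C₁ := by exact_mod_cast hC1
  have hD1' : (1 : ℝ) ≤ D₁ := by exact_mod_cast hD1
  -- the saving
  obtain ⟨s, hs⟩ : ∃ s : ℝ, s = min (κ * (1 / (2 * τ)) / D₁) (1 / 2) := ⟨_, rfl⟩
  have hs0 : 0 < s := by rw [hs]; exact lt_min (by positivity) (by norm_num)
  have hs1 : s ≤ 1 / 2 := by rw [hs]; exact min_le_right _ _
  have hs2 : s * D₁ ≤ κ * (1 / (2 * τ)) := by
    have : s ≤ κ * (1 / (2 * τ)) / D₁ := by rw [hs]; exact min_le_left _ _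
    rwa [le_div_iff₀ (by linarith)] at this
  obtain ⟨K, hK⟩ : ∃ K : ℝ, K = (2 / c) ^ (1 / τ) * (C₁ : ℝ) := ⟨_, rfl⟩
  have hK0 : 0 ≤ K := by rw [hK]; positivity
  obtain ⟨W, hW⟩ : ∃ W : ℕ → Set ℕ, W = fun N => {w : ℕ | w ≤ C₁ * N ^ D₁ ∧ ¬ D1 ε ((N : ℝ) ^ κ) ((w : ℝ) * θ)} :=
    ⟨_, rfl⟩
  have hWc : ∀ N : ℕ, 1 ≤ N → ∀ X : ℕ, 1 ≤ X → (((Icc 1 X).filter (fun v => v ∈ W N)).card : ℝ) ≤
      K * (X : ℝ) ^ (1 - s) := by
    intro N hN X hX
    have hN1 : (1 : ℝ) ≤ N := by exact_mod_cast hN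
    have hN0 : (0 : ℝ) < N := by linarith
    have hX1 : (1 : ℝ) ≤ X := by exact_mod_cast hX
    have hX0 : (0 : ℝ) < X := by linarith
    obtain ⟨Y, hY⟩ : ∃ Y : ℕ, Y = min X (C₁ * N ^ D₁) := ⟨_, rfl⟩
    have hYX : Y ≤ X := by rw [hY]; exact min_le_left _ _
    have hYN : Y ≤ C₁ * N ^ D₁ := by rw [hY]; exact min_le_right _ _
    have hY1 : 1 ≤ Y := by
      rw [hY]
      exact le_min hX (Nat.mul_pos hC1 (Nat.pow_pos hN))
    have hY1' : (1 : ℝ) ≤ Y := by exact_mod_cast hY1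
    have hY0 : (0 : ℝ) < Y := by linarith
    have hsub : (Icc 1 X).filter (fun v => v ∈ W N) ⊆
        (Icc 1 Y).filter (fun w : ℕ => ¬ D1 ε ((N : ℝ) ^ κ) ((w : ℝ) * θ)) := by
      intro v hv
      rw [mem_filter, mem_Icc, hW] at hv
      obtain ⟨⟨h1, h2⟩, h3, h4⟩ := hv
      rw [mem_filter, mem_Icc]
      refine ⟨⟨h1, ?_⟩, h4⟩
      rw [hY]
      exact le_min h2 h3
    have h1 := bad_count hτ hc hL hε hε1 ((N : ℝ) ^ κ) (Real.one_le_rpow hN1 hκ.le) Y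
    have h2 : (((Icc 1 X).filter (fun v => v ∈ W N)).card : ℝ) ≤
        (((Icc 1 Y).filter (fun w : ℕ => ¬ D1 ε ((N : ℝ) ^ κ) ((w : ℝ) * θ))).card : ℝ) := by
      exact_mod_cast card_le_card hsub
    refine h2.trans (h1.trans ?_)
    -- `N ^ (- κ / (2 τ)) ≤ C₁ * Y ^ (- s)`
    have h3 : ((N : ℝ) ^ κ) ^ (-(1 / (2 * τ))) ≤ C₁ * (Y : ℝ) ^ (-s) := by
      rw [← Real.rpow_mul hN0.le]
      have h4 : (Y : ℝ) ≤ C₁ * (N : ℝ) ^ (D₁ : ℝ) := by
        rw [Real.rpow_natCast]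
        exact_mod_cast hYN
      have h5 : (Y : ℝ) ^ s ≤ C₁ * (N : ℝ) ^ (κ * (1 / (2 * τ))) := by
        calc (Y : ℝ) ^ s ≤ (C₁ * (N : ℝ) ^ (D₁ : ℝ)) ^ s := Real.rpow_le_rpow hY0.le h4 hs0.le
          _ = (C₁ : ℝ) ^ s * (N : ℝ) ^ (D₁ * s) := by
              rw [Real.mul_rpow (by positivity) (by positivity), ← Real.rpow_mul hN0.le]
          _ ≤ C₁ * (N : ℝ) ^ (κ * (1 / (2 * τ))) := by
              apply mul_le_mul _ _ (by positivity) (by positivity)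
              · calc (C₁ : ℝ) ^ s ≤ (C₁ : ℝ) ^ (1 : ℝ) := Real.rpow_le_rpow_of_exponent_le hC1' (by linarith)
                  _ = C₁ := Real.rpow_one _
              · apply Real.rpow_le_rpow_of_exponent_le hN1
                linarith
      rw [Real.rpow_neg hY0.le, ← div_eq_mul_inv, le_div_iff₀ (by positivity),
        show κ * (-(1 / (2 * τ))) = -(κ * (1 / (2 * τ))) by ring, Real.rpow_neg hN0.le]
      rw [inv_mul_le_iff₀ (by positivity)]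
      linarith
    calc (2 / c) ^ (1 / τ) * Y * ((N : ℝ) ^ κ) ^ (-(1 / (2 * τ)))
        ≤ (2 / c) ^ (1 / τ) * Y * (C₁ * (Y : ℝ) ^ (-s)) := by gcongr
      _ = K * ((Y : ℝ) ^ (1 : ℝ) * (Y : ℝ) ^ (-s)) := by rw [hK, Real.rpow_one]; ring
      _ = K * (Y : ℝ) ^ (1 - s) := by rw [← Real.rpow_add hY0]; ring_nf
      _ ≤ K * (X : ℝ) ^ (1 - s) := by
          apply mul_le_mul_of_nonneg_left _ hK0
          apply Real.rpow_le_rpow hY0.le _ (by linarith)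
          exact_mod_cast hYX
  obtain ⟨N₀, hN₀⟩ := avoid hf (θ := 1 - s) (by linarith) (by linarith) K 2
  -- the starting point of the dyadic sum
  obtain ⟨j₀, hj₀⟩ : ∃ j₀ : ℕ, j₀ = max (max N₀ 1) ⌈5 / δ⌉₊ := ⟨_, rfl⟩
  have hj1 : 1 ≤ j₀ := by rw [hj₀]; exact (le_max_right _ _).trans (le_max_left _ _)
  have hj2 : N₀ ≤ j₀ := by rw [hj₀]; exact (le_max_left _ _).trans (le_max_left _ _)
  have hj3 : 5 / δ ≤ j₀ := by
    have h1 : (⌈5 / δ⌉₊ : ℝ) ≤ j₀ := by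
      rw [hj₀]
      exact_mod_cast le_max_right _ _
    exact (Nat.le_ceil _).trans h1
  filter_upwards [no_small hτ hc hL hε hε1 hκ (C₁ * (2 ^ j₀) ^ D₁), eventually_ge_atTop 1] with N hN hN1
  have hA : ∀ T : ℕ, 2 ^ j₀ ≤ T → (((Icc 1 T).filter (fun m => f m ∈ W N)).card : ℝ) ≤ T / Real.log T ^ 2 := by
    intro T hT
    refine hN₀ (W N) (hWc N hN1) T ?_
    have : j₀ < 2 ^ j₀ := Nat.lt_two_pow_self
    omega
  obtain ⟨J, hJ⟩ : ∃ J : ℕ, J = max j₀ N := ⟨_, rfl⟩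
  have hJ0 : j₀ ≤ J := by rw [hJ]; exact le_max_left _ _
  have hJN : N < 2 ^ J := by
    have h1 : J < 2 ^ J := Nat.lt_two_pow_self
    have h2 : N ≤ J := by rw [hJ]; exact le_max_right _ _
    omega
  have h1 := recip_sum (A := fun m => f m ∈ W N) hj1 hA J hJ0
  have hsub : (Icc 1 N).filter (fun m : ℕ => ¬ D1 ε ((N : ℝ) ^ κ) ((f m : ℝ) * θ)) ⊆
      (Ico (2 ^ j₀) (2 ^ J)).filter (fun m => f m ∈ W N) := by
    intro m hm
    rw [mem_filter, mem_Icc] at hm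
    obtain ⟨⟨h2, h3⟩, h4⟩ := hm
    rw [mem_filter, mem_Ico]
    refine ⟨⟨?_, by omega⟩, ?_⟩
    · by_contra hcon
      push Not at hcon
      apply h4
      apply hN (f m) (hf.pos m h2)
      refine (hgr' m h2).trans (Nat.mul_le_mul_left _ (Nat.pow_le_pow_left hcon.le _))
    · rw [hW]
      exact ⟨(hgr' m h2).trans (Nat.mul_le_mul_left _ (Nat.pow_le_pow_left h3 _)), h4⟩
  refine (sum_le_sum_of_subset_of_nonneg hsub fun _ _ _ => by positivity).trans (h1.trans ?_)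
  have hj0' : (0 : ℝ) < j₀ := by exact_mod_cast hj1
  have h5 : (0 : ℝ) ≤ 1 / J := by positivity
  have h6 : 5 * (1 / (j₀ : ℝ)) ≤ δ := by
    rw [mul_one_div, div_le_iff₀ hj0']
    rw [div_le_iff₀ hδ] at hj3
    linarith
  linarith

end Pool.Agent.V8H12.AM
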