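import Pool.Agent.V8H12.AM.B
import Pool.Agent.N141.SG.Seq3

set_option autoImplicit false

/-! Exponential sums over primes, uniformly in the frequency (helper12). -/

namespace Pool.Agent.V8H12.AM

open Finset Filter
open Pool.Agent.H469R2.NK (e norm_e e_add)
open Pool.Agent.W147.PS (ev_pow)
open Pool.Agent.TH915.PW (prime_bound abel_bound)
open Pool.Agent.Y961.JR (mangoldtJ Dio)

lemma dio_of {ε Z α : ℝ} (h : D1 ε Z α) : Dio ε Z (fun _ : Fin 1 => α) := by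
  intro k hk hkZ m
  rw [Fin.sum_univ_one]
  have hk0 : k 0 ≠ 0 := by
    intro h0
    apply hk
    funext j
    rw [Subsingleton.elim j 0, h0]
    rfl
  have hn : 1 ≤ (k 0).natAbs := Int.natAbs_pos.2 hk0
  have hnr : (((k 0).natAbs : ℕ) : ℝ) = |(k 0 : ℝ)| := by
    rw [Nat.cast_natAbs]
    push_cast
    rfl
  have hZ : (((k 0).natAbs : ℕ) : ℝ) ≤ Z ^ ε := by
    rw [hnr]
    exact hkZ 0
  rcases lt_or_gt_of_ne hk0 with h1 | h1
  · have h2 := h _ hn hZ (-m)
    have h3 : (k 0 : ℝ) < 0 := by exact_mod_cast h1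
    rw [hnr, abs_of_neg h3] at h2
    have e1 : -(k 0 : ℝ) * α - ((-m : ℤ) : ℝ) = -((k 0 : ℝ) * α - m) := by
      push_cast
      ring
    rw [e1, abs_neg] at h2
    exact h2
  · have h2 := h _ hn hZ m
    have h3 : (0 : ℝ) < k 0 := by exact_mod_cast h1
    rw [hnr, abs_of_pos h3] at h2
    exact h2

/-- dyadic sums -/
theorem prime_unif (ε : ℝ) (hε0 : 0 < ε) (hε1 : ε ≤ 1 / 2) : ∃ η : ℝ, 0 < η ∧ η < 1 / 4 ∧
    ∀ᶠ Z : ℕ in atTop, ∀ α : ℝ, D1 ε Z α → ∀ T : ℕ, Z ≤ T → T ≤ 2 * Z →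
      ‖∑ p ∈ (Ioc Z T).filter Nat.Prime, e (α * p)‖ ≤ (Z : ℝ) ^ (1 - η) := by
  classical
  have hM := mangoldtJ 1 ε hε0 hε1 1 le_rfl
  set κ : ℝ := 9 / 20 * (ε / 8) with hκ
  have hκ0 : 0 < κ := by positivity
  have hκ1 : κ < 1 / 4 := by
    rw [hκ]
    linarith
  have hlogev : ∀ᶠ Z : ℝ in atTop, Real.log (2 * Z) ≤ Z ^ (1 / 4 : ℝ) := by
    have e1 := (isLittleO_log_rpow_atTop (show (0 : ℝ) < 1 / 8 by norm_num)).def
      (show (0 : ℝ) < 1 by norm_num)
    have e2 : Tendsto (fun Z : ℝ => 2 * Z) atTop atTop := tendsto_id.const_mul_atTop (by norm_num)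
    filter_upwards [e2.eventually e1, eventually_ge_atTop (1 : ℝ),
      ev_pow (1 / 8) (1 / 4) (2 ^ (1 / 8 : ℝ)) (by norm_num)] with Z e3 e4 e5
    rw [Real.norm_eq_abs, Real.norm_eq_abs, abs_of_nonneg (Real.log_nonneg (by linarith)),
      abs_of_nonneg (by positivity), one_mul, Real.mul_rpow (by norm_num) (by linarith)] at e3
    linarith
  refine ⟨κ / 2, by positivity, by linarith, ?_⟩
  have hev : ∀ᶠ Z : ℝ in atTop, Real.log (2 * Z) ≤ Z ^ (1 / 4 : ℝ) ∧ 4 ≤ Z ∧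
      4 * Z ^ (3 / 4 : ℝ) ≤ Z ^ (1 - κ) ∧ 5 * Z ^ (1 - κ) ≤ Z ^ (1 - κ / 2) := by
    filter_upwards [hlogev, eventually_ge_atTop (4 : ℝ), ev_pow (3 / 4) (1 - κ) 4 (by linarith),
      ev_pow (1 - κ) (1 - κ / 2) 5 (by linarith)] with Z h1 h2 h4 h5
    exact ⟨h1, h2, h4, h5⟩
  have hall := hev.and hM
  filter_upwards [tendsto_natCast_atTop_atTop.eventually hall] with N hN
  obtain ⟨⟨hlog, hN4, hp1, hp2⟩, hM1⟩ := hN
  intro θ hθ T hNT hT2
  have hN4' : 4 ≤ N := by exact_mod_cast hN4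
  have hN0 : (0 : ℝ) < N := by linarith
  have hN1 : (1 : ℝ) ≤ N := by linarith
  have hvm := hM1 (fun _ => θ) (dio_of hθ) (fun _ => 1) (by
    intro h
    have := congrFun h 0
    simp at this) (fun _ => by
      rw [Int.cast_one, abs_one]
      exact Real.one_le_rpow hN1 (by positivity)) 1 le_rfl (by
      rw [Nat.cast_one]
      exact Real.one_le_rpow hN1 (by positivity)) 0
  set E : ℝ := 5 * (N : ℝ) ^ (1 - κ) with hE
  have hE0 : 0 ≤ E := by positivity
  set A : ℕ → ℂ := fun n => (((if n.Prime then Real.log n else 0 : ℝ)) : ℂ) * e (θ * n) with hA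
  have hcls : ∀ t : ℕ, N < t → t ≤ T → ‖∑ n ∈ Ioc N t, A n‖ ≤ E := by
    intro t ht1 htT
    have ht2 : t ≤ 2 * N := htT.trans hT2
    have htr : (t : ℝ) ≤ 2 * N := by exact_mod_cast ht2
    have ht0 : 1 ≤ t := by omega
    have htlog : 2 * √(t : ℝ) * Real.log t ≤ (N : ℝ) ^ (1 - κ) := by
      have h7 : √(t : ℝ) ≤ 2 * (N : ℝ) ^ (1 / 2 : ℝ) := by
        rw [← Real.sqrt_eq_rpow]
        calc √(t : ℝ) ≤ √(2 ^ 2 * N) := Real.sqrt_le_sqrt (by linarith)
          _ = 2 * √N := by rw [Real.sqrt_mul (by norm_num), Real.sqrt_sq (by norm_num)]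
      have h8 : Real.log (t : ℝ) ≤ (N : ℝ) ^ (1 / 4 : ℝ) := by
        refine le_trans ?_ hlog
        apply Real.log_le_log _ htr
        exact_mod_cast ht0
      have h9 : 0 ≤ Real.log (t : ℝ) := Real.log_nonneg (by exact_mod_cast ht0)
      calc 2 * √(t : ℝ) * Real.log t ≤ 2 * (2 * (N : ℝ) ^ (1 / 2 : ℝ)) * (N : ℝ) ^ (1 / 4 : ℝ) := by
            gcongr
        _ = 4 * ((N : ℝ) ^ (1 / 2 : ℝ) * (N : ℝ) ^ (1 / 4 : ℝ)) := by ring
        _ = 4 * (N : ℝ) ^ (3 / 4 : ℝ) := by rw [← Real.rpow_add hN0]; norm_num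
        _ ≤ _ := hp1
    have h10 := hvm t (by rw [Nat.floor_natCast]; exact ht1.le) htr
    rw [Nat.floor_natCast] at h10
    have e1 : ∑ n ∈ Ioc N t, ((ArithmeticFunction.vonMangoldt n : ℝ) : ℂ) *
        e (((∑ i : Fin 1, (((fun _ : Fin 1 => (1 : ℤ)) i : ℤ) : ℝ) * θ) / ((1 : ℕ) : ℝ) +
          ((0 : ℤ) : ℝ) / ((1 : ℕ) : ℝ)) * n) =
        ∑ n ∈ Ioc N t, ((ArithmeticFunction.vonMangoldt n : ℝ) : ℂ) * e (θ * n) := by
      refine sum_congr rfl fun n _ => ?_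
      congr 2
      simp
    rw [e1] at h10
    have h2 := prime_bound N t ht0 (fun n => e (θ * n)) (fun n => (norm_e _).le) _ h10
    refine h2.trans ?_
    rw [hE]
    linarith
  set w : ℕ → ℝ := fun n => (Real.log n)⁻¹ with hw
  have hlogpos : ∀ n : ℕ, N < n → 1 ≤ Real.log n := by
    intro n hn
    rw [Real.le_log_iff_exp_le (by
      have : 0 < n := by omega
      exact_mod_cast this)]
    have h1 := Real.exp_one_lt_d9
    have h2 : (5 : ℝ) ≤ n := by exact_mod_cast (by omega : 5 ≤ n)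
    linarith
  rcases hNT.eq_or_lt with hNT | hNT
  · rw [← hNT, Ioc_self, filter_empty, sum_empty, norm_zero]
    positivity
  have hab := abel_bound w A N E (fun n hn => by
      have := hlogpos n hn
      rw [hw]
      positivity) (fun n hn => by
      have h1 := hlogpos n hn
      rw [hw]
      simp only
      apply inv_anti₀ (by linarith)
      apply Real.log_le_log
      · have : 0 < n := by omega
        exact_mod_cast this
      · push_cast
        linarith) T hNT (fun t ht1 ht2 => hcls t ht1 ht2)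
  have hsum : ∑ p ∈ (Ioc N T).filter Nat.Prime, e (θ * p) = ∑ i ∈ Ioc N T, (w i : ℂ) * A i := by
    rw [sum_filter]
    refine sum_congr rfl fun n hn => ?_
    have hn0 := hlogpos n (Finset.mem_Ioc.mp hn).1
    rw [hA, hw]
    simp only
    by_cases h2 : n.Prime
    · rw [if_pos h2, if_pos h2, ← mul_assoc]
      rw [← Complex.ofReal_mul, inv_mul_cancel₀ (by linarith), Complex.ofReal_one, one_mul]
    · rw [if_neg h2, if_neg h2]
      simp
  rw [hsum]
  refine hab.trans ?_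
  have hw1 : w (N + 1) ≤ 1 := by
    rw [hw]
    exact inv_le_one_of_one_le₀ (hlogpos (N + 1) (by omega))
  calc w (N + 1) * E ≤ 1 * E := mul_le_mul_of_nonneg_right hw1 hE0
    _ = 5 * (N : ℝ) ^ (1 - κ) := by rw [one_mul]
    _ ≤ _ := hp2

/-- long sums -/
theorem long_sum {ε η : ℝ} {Z₀ : ℕ} (hη : η < 1) (hZ : ∀ Z : ℕ, Z₀ ≤ Z → ∀ α : ℝ, D1 ε Z α → ∀ T : ℕ, Z ≤ T →
    T ≤ 2 * Z → ‖∑ p ∈ (Ioc Z T).filter Nat.Prime, e (α * p)‖ ≤ (Z : ℝ) ^ (1 - η)) (α : ℝ) (M : ℕ) :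
    ∀ (k L : ℕ), Z₀ ≤ L → (∀ Z : ℕ, L ≤ Z → Z ≤ M → D1 ε Z α) → M ≤ 2 ^ k * L →
      ‖∑ p ∈ (Ioc L M).filter Nat.Prime, e (α * p)‖ ≤ k * (M : ℝ) ^ (1 - η) := by
  intro k
  induction k with
  | zero =>
    intro L _ _ hM
    rw [pow_zero, one_mul] at hM
    rw [Ioc_eq_empty (by omega), filter_empty, sum_empty, norm_zero]
    simp
  | succ k ih =>
    intro L hL hD hM
    have hM0 : (0 : ℝ) ≤ (M : ℝ) ^ (1 - η) := by positivity
    have hk0 : (0 : ℝ) ≤ k := Nat.cast_nonneg _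
    rcases le_or_gt M L with hML | hML
    · rw [Ioc_eq_empty (by omega), filter_empty, sum_empty, norm_zero]
      positivity
    have hLM : (L : ℝ) ^ (1 - η) ≤ (M : ℝ) ^ (1 - η) := by
      apply Real.rpow_le_rpow (Nat.cast_nonneg _) _ (by linarith)
      exact_mod_cast hML.le
    rcases le_or_gt M (2 * L) with hM2 | hM2
    · have h1 := hZ L hL α (hD L le_rfl hML.le) M hML.le hM2
      push_cast
      nlinarith
    · have e1 : (Ioc L M).filter Nat.Prime =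
          (Ioc L (2 * L)).filter Nat.Prime ∪ (Ioc (2 * L) M).filter Nat.Prime := by
        rw [← filter_union, Ioc_union_Ioc_eq_Ioc (by omega) hM2.le]
      have hdis : Disjoint ((Ioc L (2 * L)).filter Nat.Prime) ((Ioc (2 * L) M).filter Nat.Prime) :=
        disjoint_filter_filter (Ioc_disjoint_Ioc_of_le le_rfl)
      rw [e1, sum_union hdis]
      have h1 := hZ L hL α (hD L le_rfl hML.le) (2 * L) (by omega) le_rfl
      have h2 := ih (2 * L) (by omega) (fun Z hZ1 hZ2 => hD Z (by omega) hZ2) (by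
        rw [pow_succ, mul_assoc] at hM
        exact hM)
      refine (norm_add_le _ _).trans ?_
      push_cast
      nlinarith

end Pool.Agent.V8H12.AM
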