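import Pool.Agent.V8H12.AM.C
import Pool.Agent.N375.AV.B

set_option autoImplicit false

/-! Exponential sums over the values of arithmetic functions (helper12). -/

namespace Pool.Agent.V8H12.AM

open Finset Filter Classical
open Pool.Agent.H469R2.NK (e norm_e e_add)
open Pool.Agent.N375.AV (Below decomp powers_few sum_div_le sp_smooth)
open Pool.Agent.N733.TG (few_large sp)

/-- the largest prime power which divides `m` -/
noncomputable def lam (m : ℕ) : ℕ := (m.divisors.filter IsPrimePow).sup id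

lemma below_iff {m p : ℕ} (hm : 1 ≤ m) (hp : 1 ≤ p) : Below m p ↔ lam m < p := by
  unfold lam
  rw [Finset.sup_lt_iff (by rw [Nat.bot_eq_zero]; omega)]
  constructor
  · intro h d hd
    rw [mem_filter, Nat.mem_divisors, isPrimePow_nat_iff] at hd
    obtain ⟨⟨h1, _⟩, q, j, hq, hj, rfl⟩ := hd
    exact h q j hq hj h1
  · intro h q j hq hj hd
    apply h
    rw [mem_filter, Nat.mem_divisors, isPrimePow_nat_iff]
    exact ⟨⟨hd, by omega⟩, q, j, hq, hj, rfl⟩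

/-- a function linear in the large primes `p` -/
def PL (f : ℕ → ℕ) : Prop := ∃ (a : ℕ → ℤ) (b : ℕ → ℕ) (P₀ : ℕ), Mult b ∧
  ∀ m p : ℕ, 1 ≤ m → p.Prime → P₀ ≤ p → Below m p → ((f (m * p) : ℕ) : ℤ) = a m + b m * p

lemma below_unique {m p m' p' : ℕ} (hp : p.Prime) (hp' : p'.Prime) (h : Below m p) (h' : Below m' p')
    (he : m * p = m' * p') : p = p' := by
  by_contra hne
  have h1 : p ∣ m' := by
    have : p ∣ m' * p' := by rw [← he]; exact dvd_mul_left _ _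
    rcases (Nat.Prime.dvd_mul hp).1 this with h2 | h2
    · exact h2
    · exact absurd ((Nat.prime_dvd_prime_iff_eq hp hp').1 h2) hne
  have h2 : p' ∣ m := by
    have : p' ∣ m * p := by rw [he]; exact dvd_mul_left _ _
    rcases (Nat.Prime.dvd_mul hp').1 this with h2 | h2
    · exact h2
    · exact absurd ((Nat.prime_dvd_prime_iff_eq hp' hp).1 h2).symm hne
  have h3 := h' p 1 hp le_rfl (by rw [pow_one]; exact h1)
  have h4 := h p' 1 hp' le_rfl (by rw [pow_one]; exact h2)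
  rw [pow_one] at h3 h4
  omega

/-- the sum over the products `m p` -/
lemma split (N z : ℕ) (F : ℕ → ℂ) :
    ∑ n ∈ (Icc 1 N).filter (fun n => ∃ m p : ℕ, 1 ≤ m ∧ p.Prime ∧ z ^ 2 < p ∧ Below m p ∧ n = m * p), F n =
      ∑ m ∈ Icc 1 N, ∑ p ∈ (Ioc (max (z ^ 2) (lam m)) (N / m)).filter Nat.Prime, F (m * p) := by
  rw [sum_sigma']
  symm
  apply sum_bij (fun (x : (_ : ℕ) × ℕ) _ => x.1 * x.2)
  · rintro ⟨m, p⟩ hx
    simp only [mem_sigma, mem_Icc, mem_filter, mem_Ioc] at hx ⊢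
    obtain ⟨⟨h1, h2⟩, ⟨h3, h4⟩, h5⟩ := hx
    have h6 := (le_max_left (z ^ 2) (lam m)).trans_lt h3
    have h7 := (le_max_right (z ^ 2) (lam m)).trans_lt h3
    have h8 : m * p ≤ N := by
      rw [mul_comm]
      exact (Nat.le_div_iff_mul_le (by omega)).1 h4
    refine ⟨⟨Nat.mul_pos h1 h5.pos, h8⟩, m, p, h1, h5, h6, (below_iff h1 h5.one_le).2 h7, rfl⟩
  · rintro ⟨m, p⟩ hx ⟨m', p'⟩ hx' he
    simp only [mem_sigma, mem_Icc, mem_filter, mem_Ioc] at hx hx' he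
    obtain ⟨⟨h1, h2⟩, ⟨h3, h4⟩, h5⟩ := hx
    obtain ⟨⟨h1', h2'⟩, ⟨h3', h4'⟩, h5'⟩ := hx'
    have h7 := (le_max_right (z ^ 2) (lam m)).trans_lt h3
    have h7' := (le_max_right (z ^ 2) (lam m')).trans_lt h3'
    have h8 := below_unique h5 h5' ((below_iff h1 h5.one_le).2 h7) ((below_iff h1' h5'.one_le).2 h7') he
    subst h8
    have h9 := Nat.eq_of_mul_eq_mul_right h5.pos he
    subst h9
    rfl
  · intro n hn
    simp only [mem_Icc, mem_filter] at hn
    obtain ⟨⟨h1, h2⟩, m, p, h3, h4, h5, h6, h7⟩ := hn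
    refine ⟨⟨m, p⟩, ?_, h7.symm⟩
    simp only [mem_sigma, mem_Icc, mem_filter, mem_Ioc]
    rw [h7] at h2
    refine ⟨⟨h3, (Nat.le_mul_of_pos_right m h4.pos).trans h2⟩, ⟨max_lt h5 ((below_iff h3 h4.one_le).1 h6), ?_⟩, h4⟩
    rw [Nat.le_div_iff_mul_le (by omega), mul_comm]
    exact h2
  · rintro ⟨m, p⟩ _
    rfl

/-- the number of the exceptional integers -/
lemma exc_few : ∃ C : ℝ, 0 ≤ C ∧ ∀ N z : ℕ, 1 ≤ z → 2 ≤ N →
    (((Icc 1 N).filter (fun n => ¬ ∃ m p : ℕ, 1 ≤ m ∧ p.Prime ∧ z ^ 2 < p ∧ Below m p ∧ n = m * p)).card : ℝ) ≤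
      4 * N * (2 * Real.log z + C) / Real.log N + √N + 2 * N / z := by
  obtain ⟨C, hC0, hC⟩ := few_large
  refine ⟨C, hC0, fun N z hz hN => ?_⟩
  have hN2 : (2 : ℝ) ≤ N := by exact_mod_cast hN
  have hsq : (1 : ℝ) < √N := by
    rw [Real.lt_sqrt (by norm_num)]
    linarith
  have h1 := hC N (z ^ 2) (√N) (Nat.pow_pos hz) hsq
  have h2 := powers_few N z hz
  rw [Nat.cast_pow, Real.log_pow, Real.log_sqrt (by linarith)] at h1
  have hsub : (Icc 1 N).filter (fun n => ¬ ∃ m p : ℕ, 1 ≤ m ∧ p.Prime ∧ z ^ 2 < p ∧ Below m p ∧ n = m * p) ⊆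
      ((Icc 1 N).filter (fun m => √(N : ℝ) < (sp (z ^ 2) m : ℝ)) ∪ Icc 1 ⌊√(N : ℝ)⌋₊) ∪
        (Icc 1 N).filter (fun n => (∃ p : ℕ, p.Prime ∧ z < p ∧ p ^ 2 ∣ n) ∨
          ∃ q j : ℕ, q.Prime ∧ q ≤ z ∧ z ^ 2 ≤ q ^ j ∧ q ^ j ∣ n) := by
    intro n hn
    rw [mem_filter, mem_Icc] at hn
    obtain ⟨⟨h3, h4⟩, h5⟩ := hn
    rw [mem_union, mem_union, mem_filter, mem_filter, mem_Icc, mem_Icc]
    by_cases h6 : (∃ p : ℕ, p.Prime ∧ z < p ∧ p ^ 2 ∣ n) ∨ ∃ q j : ℕ, q.Prime ∧ q ≤ z ∧ z ^ 2 ≤ q ^ j ∧ q ^ j ∣ n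
    · exact Or.inr ⟨⟨h3, h4⟩, h6⟩
    · by_cases h7 : ∀ p : ℕ, p.Prime → p ∣ n → p ≤ z ^ 2
      · left
        rw [sp_smooth (by omega) h7]
        rcases le_or_gt (n : ℝ) (√N) with h8 | h8
        · exact Or.inr ⟨h3, Nat.le_floor h8⟩
        · exact Or.inl ⟨⟨h3, h4⟩, h8⟩
      · exact absurd (decomp h3 hz h7 h6) h5
  have h3 := (card_le_card hsub).trans ((card_union_le _ _).trans (Nat.add_le_add_right (card_union_le _ _) _))
  have h4 : (((Icc 1 N).filter (fun n => ¬ ∃ m p : ℕ, 1 ≤ m ∧ p.Prime ∧ z ^ 2 < p ∧ Below m p ∧ n = m * p)).card : ℝ) ≤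
      (((Icc 1 N).filter (fun m => √(N : ℝ) < (sp (z ^ 2) m : ℝ))).card : ℝ) + ((Icc 1 ⌊√(N : ℝ)⌋₊).card : ℝ) +
        (((Icc 1 N).filter (fun n => (∃ p : ℕ, p.Prime ∧ z < p ∧ p ^ 2 ∣ n) ∨
          ∃ q j : ℕ, q.Prime ∧ q ≤ z ∧ z ^ 2 ≤ q ^ j ∧ q ^ j ∣ n)).card : ℝ) := by
    exact_mod_cast h3
  rw [Nat.card_Icc, Nat.add_sub_cancel] at h4
  have h5 : ((⌊√(N : ℝ)⌋₊ : ℕ) : ℝ) ≤ √N := Nat.floor_le (by positivity)
  have h6 : 2 * (N : ℝ) * (((2 : ℕ) : ℝ) * Real.log z + C) / (Real.log N / 2) =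
      4 * N * (2 * Real.log z + C) / Real.log N := by
    push_cast
    rw [div_div_eq_mul_div]
    ring
  rw [h6] at h1
  linarith

/-- the logarithms are small -/
lemma log_ev (σ δ : ℝ) (hσ : 0 < σ) (hδ : 0 < δ) : ∀ᶠ N : ℕ in atTop,
    (2 * Real.log N + 1) * (1 + Real.log N) * (N : ℝ) ^ (-σ) ≤ δ := by
  have h1 := (isLittleO_log_rpow_atTop (show (0 : ℝ) < σ / 2 by positivity)).def
    (show (0 : ℝ) < √(δ / 6) by positivity)
  filter_upwards [tendsto_natCast_atTop_atTop.eventually h1, eventually_ge_atTop 3] with N hN hN3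
  have hN3' : (3 : ℝ) ≤ N := by exact_mod_cast hN3
  have hN0 : (0 : ℝ) < N := by linarith
  have hlog : 1 ≤ Real.log N := by
    rw [Real.le_log_iff_exp_le hN0]
    have := Real.exp_one_lt_d9
    linarith
  rw [Real.norm_eq_abs, Real.norm_eq_abs, abs_of_nonneg (by linarith), abs_of_nonneg (by positivity)] at hN
  have h2 : Real.log N ^ 2 ≤ δ / 6 * (N : ℝ) ^ σ := by
    calc Real.log N ^ 2 ≤ (√(δ / 6) * (N : ℝ) ^ (σ / 2)) ^ 2 := by
          apply pow_le_pow_left₀ (by linarith) hN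
      _ = δ / 6 * (N : ℝ) ^ σ := by
          rw [mul_pow, Real.sq_sqrt (by positivity), ← Real.rpow_natCast, ← Real.rpow_mul hN0.le]
          congr 2
          push_cast
          ring
  rw [Real.rpow_neg hN0.le, ← div_eq_mul_inv, div_le_iff₀ (by positivity)]
  nlinarith

/-- **Exponential sums over the values of arithmetic functions.** -/
theorem exp_sum {f : ℕ → ℕ} (hf : PL f) {θ : ℝ} (hθ : Irrational θ) (hL : ∃ τ c : ℝ, 1 ≤ τ ∧ 0 < c ∧ Lio τ c θ) :
    ∀ δ : ℝ, 0 < δ → ∀ᶠ N : ℕ in atTop, ‖∑ n ∈ Icc 1 N, e (θ * f n)‖ ≤ δ * N := by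
  obtain ⟨a, b, P₀, hb, hab⟩ := hf
  intro δ hδ
  obtain ⟨ε₀, hε₀, hmult⟩ := hb θ hθ hL
  obtain ⟨κ, hκ⟩ : ∃ κ : ℝ, κ = min (δ / 64) (1 / 8) := ⟨_, rfl⟩
  have hκ0 : 0 < κ := by rw [hκ]; exact lt_min (by positivity) (by norm_num)
  have hκ1 : κ ≤ 1 / 8 := by rw [hκ]; exact min_le_right _ _
  have hκδ : κ ≤ δ / 64 := by rw [hκ]; exact min_le_left _ _
  obtain ⟨ε', hε'⟩ : ∃ ε' : ℝ, ε' = min ε₀ (1 / 2) := ⟨_, rfl⟩
  have hε'0 : 0 < ε' := by rw [hε']; exact lt_min hε₀ (by norm_num)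
  have hε'1 : ε' ≤ ε₀ := by rw [hε']; exact min_le_left _ _
  have hε'2 : ε' ≤ 1 / 2 := by rw [hε']; exact min_le_right _ _
  obtain ⟨ε, hε⟩ : ∃ ε : ℝ, ε = κ * ε' := ⟨_, rfl⟩
  have hε0 : 0 < ε := by rw [hε]; positivity
  have hεε' : ε ≤ ε' := by rw [hε]; nlinarith
  obtain ⟨η, hη0, hη1, hun⟩ := prime_unif ε hε0 (by linarith)
  obtain ⟨Z₀, hZ₀⟩ := eventually_atTop.1 hun
  obtain ⟨C, hC0, hC⟩ := exc_few
  have hpow : Tendsto (fun N : ℕ => (N : ℝ) ^ κ) atTop atTop :=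
    (tendsto_rpow_atTop hκ0).comp tendsto_natCast_atTop_atTop
  have hlogt : Tendsto (fun N : ℕ => Real.log N) atTop atTop :=
    Real.tendsto_log_atTop.comp tendsto_natCast_atTop_atTop
  filter_upwards [hmult ε' hε'0 hε'1 κ hκ0 (δ / 4) (by positivity), eventually_ge_atTop 3,
    log_ev (κ * η) (δ / 4) (by positivity) (by positivity),
    hpow.eventually_ge_atTop (max (max (Z₀ : ℝ) P₀) (32 / δ + 1)),
    hlogt.eventually_ge_atTop (4 * (2 * Real.log 2 + C) * (16 / δ)),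
    tendsto_natCast_atTop_atTop.eventually_ge_atTop ((16 / δ) ^ 2)] with N h1 hN3 h2 h3 h4 h5
  have hN3' : (3 : ℝ) ≤ N := by exact_mod_cast hN3
  have hN0 : (0 : ℝ) < N := by linarith
  have hN1 : (1 : ℝ) ≤ N := by linarith
  have hlog : 1 ≤ Real.log N := by
    rw [Real.le_log_iff_exp_le hN0]
    have := Real.exp_one_lt_d9
    linarith
  have hy1 : 1 ≤ (N : ℝ) ^ κ := Real.one_le_rpow hN1 hκ0.le
  obtain ⟨z, hz⟩ : ∃ z : ℕ, z = ⌊(N : ℝ) ^ κ⌋₊ + 1 := ⟨_, rfl⟩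
  have hz1 : 1 ≤ z := by omega
  have hzy : (N : ℝ) ^ κ ≤ z := by
    rw [hz]
    push_cast
    exact (Nat.lt_floor_add_one _).le
  have hzy2 : (z : ℝ) ≤ 2 * (N : ℝ) ^ κ := by
    rw [hz]
    push_cast
    have := Nat.floor_le (show (0 : ℝ) ≤ (N : ℝ) ^ κ by positivity)
    linarith
  have hzz : (N : ℝ) ^ κ ≤ ((z ^ 2 : ℕ) : ℝ) := by
    push_cast
    have : (1 : ℝ) ≤ z := by exact_mod_cast hz1
    nlinarith
  have hzZ : Z₀ ≤ z ^ 2 := by
    have : (Z₀ : ℝ) ≤ ((z ^ 2 : ℕ) : ℝ) := (le_max_left _ _).trans ((le_max_left _ _).trans (h3.trans hzz))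
    exact_mod_cast this
  have hzP : P₀ ≤ z ^ 2 := by
    have : (P₀ : ℝ) ≤ ((z ^ 2 : ℕ) : ℝ) := (le_max_right _ _).trans ((le_max_left _ _).trans (h3.trans hzz))
    exact_mod_cast this
  -- the exceptional integers
  have hexc : (((Icc 1 N).filter (fun n => ¬ ∃ m p : ℕ, 1 ≤ m ∧ p.Prime ∧ z ^ 2 < p ∧ Below m p ∧
      n = m * p)).card : ℝ) ≤ δ / 2 * N := by
    refine (hC N z hz1 (by omega)).trans ?_
    have hz0 : (0 : ℝ) < z := by exact_mod_cast hz1
    have k1 : Real.log z ≤ Real.log 2 + κ * Real.log N := by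
      calc Real.log z ≤ Real.log (2 * (N : ℝ) ^ κ) := Real.log_le_log hz0 hzy2
        _ = _ := by rw [Real.log_mul (by norm_num) (by positivity), Real.log_rpow hN0]
    have k2 : 4 * N * (2 * Real.log z + C) / Real.log N ≤ 3 * δ / 16 * N := by
      rw [div_le_iff₀ (by linarith)]
      have k3 : 2 * Real.log z + C ≤ 2 * κ * Real.log N + (2 * Real.log 2 + C) := by linarith
      have k4 : 4 * (2 * Real.log 2 + C) ≤ δ / 16 * Real.log N := by
        have : 4 * (2 * Real.log 2 + C) * (16 / δ) * (δ / 16) ≤ Real.log N * (δ / 16) :=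
          mul_le_mul_of_nonneg_right h4 (by positivity)
        have e1 : 4 * (2 * Real.log 2 + C) * (16 / δ) * (δ / 16) = 4 * (2 * Real.log 2 + C) := by
          field_simp
        linarith
      have k5 : 4 * (2 * Real.log z + C) ≤ 3 * δ / 16 * Real.log N := by
        have : 8 * κ * Real.log N ≤ δ / 8 * Real.log N := mul_le_mul_of_nonneg_right (by linarith) (by linarith)
        linarith
      nlinarith
    have k6 : √(N : ℝ) ≤ δ / 16 * N := by
      have e2 : 16 / δ ≤ √(N : ℝ) := Real.le_sqrt_of_sq_le h5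
      have e3 : √(N : ℝ) * √(N : ℝ) = N := Real.mul_self_sqrt hN0.le
      have e4 : 1 ≤ δ / 16 * √(N : ℝ) := by
        have := mul_le_mul_of_nonneg_left e2 (show (0 : ℝ) ≤ δ / 16 by positivity)
        have e5 : δ / 16 * (16 / δ) = 1 := by field_simp
        linarith
      calc √(N : ℝ) = 1 * √(N : ℝ) := (one_mul _).symm
        _ ≤ (δ / 16 * √(N : ℝ)) * √(N : ℝ) := mul_le_mul_of_nonneg_right e4 (Real.sqrt_nonneg _)
        _ = δ / 16 * N := by rw [mul_assoc, e3]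
    have k7 : 2 * (N : ℝ) / z ≤ δ / 16 * N := by
      rw [div_le_iff₀ hz0]
      have e2 : 32 / δ ≤ z := by
        have := (le_max_right (max (Z₀ : ℝ) P₀) (32 / δ + 1)).trans (h3.trans hzy)
        linarith
      have e3 : 2 ≤ δ / 16 * z := by
        have := mul_le_mul_of_nonneg_left e2 (show (0 : ℝ) ≤ δ / 16 by positivity)
        have e5 : δ / 16 * (32 / δ) = 2 := by field_simp; norm_num
        linarith
      nlinarith
    nlinarith
  -- the main sum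
  have hmain : ‖∑ n ∈ (Icc 1 N).filter (fun n => ∃ m p : ℕ, 1 ≤ m ∧ p.Prime ∧ z ^ 2 < p ∧ Below m p ∧ n = m * p),
      e (θ * f n)‖ ≤ δ / 2 * N := by
    rw [split N z (fun n => e (θ * f n))]
    refine (norm_sum_le _ _).trans ?_
    obtain ⟨k, hk⟩ : ∃ k : ℕ, k = Nat.log 2 N + 1 := ⟨_, rfl⟩
    have hkN : N < 2 ^ k := by rw [hk]; exact Nat.lt_pow_succ_log_self (by norm_num) N
    have hkr : (k : ℝ) ≤ 2 * Real.log N + 1 := by
      rw [hk]
      push_cast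
      have e1 := Real.natLog_le_logb N 2
      have e2 : Real.logb ((2 : ℕ) : ℝ) N ≤ 2 * Real.log N := by
        rw [Real.logb, div_le_iff₀ (Real.log_pos (by norm_num))]
        have := Real.log_two_gt_d9
        push_cast
        nlinarith
      linarith
    have hterm : ∀ m ∈ Icc 1 N, ‖∑ p ∈ (Ioc (max (z ^ 2) (lam m)) (N / m)).filter Nat.Prime, e (θ * f (m * p))‖ ≤
        (2 * Real.log N + 1) * ((N : ℝ) ^ κ) ^ (-η) * (((N / m : ℕ)) : ℝ) +
          (if ¬ D1 ε' ((N : ℝ) ^ κ) ((b m : ℝ) * θ) then (N : ℝ) * (1 / m) else 0) := by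
      intro m hm
      rw [mem_Icc] at hm
      have hm0 : (0 : ℝ) < m := by exact_mod_cast hm.1
      have hpos1 : 0 ≤ (2 * Real.log N + 1) * ((N : ℝ) ^ κ) ^ (-η) * (((N / m : ℕ)) : ℝ) := by positivity
      by_cases hD : D1 ε' ((N : ℝ) ^ κ) ((b m : ℝ) * θ)
      · rw [if_neg (not_not.2 hD), add_zero]
        obtain ⟨L, hLd⟩ : ∃ L : ℕ, L = max (z ^ 2) (lam m) := ⟨_, rfl⟩
        have hLz : z ^ 2 ≤ L := by rw [hLd]; exact le_max_left _ _
        have hLz' : (N : ℝ) ^ κ ≤ L := hzz.trans (by exact_mod_cast hLz)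
        rw [← hLd]
        have e1 : ∑ p ∈ (Ioc L (N / m)).filter Nat.Prime, e (θ * f (m * p)) =
            e (θ * a m) * ∑ p ∈ (Ioc L (N / m)).filter Nat.Prime, e (((b m : ℝ) * θ) * p) := by
          rw [mul_sum]
          refine sum_congr rfl fun p hp => ?_
          rw [mem_filter, mem_Ioc] at hp
          obtain ⟨⟨h6, h7⟩, h8⟩ := hp
          have h9 : Below m p := (below_iff hm.1 h8.one_le).2 (lt_of_le_of_lt (by rw [hLd]; exact le_max_right _ _) h6)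
          have h10 := hab m p hm.1 h8 (by omega) h9
          have h11 : ((f (m * p) : ℕ) : ℝ) = a m + b m * p := by exact_mod_cast h10
          rw [← e_add, h11]
          congr 1
          ring
        rw [e1, norm_mul, norm_e, one_mul]
        rcases le_or_gt (N / m) L with hML | hML
        · rw [Ioc_eq_empty (by omega), filter_empty, sum_empty, norm_zero]
          exact hpos1
        · have h6 := long_sum (ε := ε) (η := η) (by linarith) (fun Z hZ => hZ₀ Z hZ) ((b m : ℝ) * θ) (N / m) k L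
            (hzZ.trans hLz) (fun Z hZ1 hZ2 => by
              have hZr : (N : ℝ) ^ κ ≤ Z := hLz'.trans (by exact_mod_cast hZ1)
              have hZN : (Z : ℝ) ≤ N := by exact_mod_cast hZ2.trans (Nat.div_le_self _ _)
              apply hD.mono hy1 hZr _ hεε' (by linarith)
              calc (Z : ℝ) ^ ε ≤ (N : ℝ) ^ ε := Real.rpow_le_rpow (Nat.cast_nonneg _) hZN hε0.le
                _ = ((N : ℝ) ^ κ) ^ ε' := by rw [← Real.rpow_mul hN0.le, hε]) (by
              have hL1 : 1 ≤ L := by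
                have : 0 < z ^ 2 := Nat.pow_pos hz1
                omega
              calc N / m ≤ N := Nat.div_le_self _ _
                _ ≤ 2 ^ k := hkN.le
                _ ≤ 2 ^ k * L := Nat.le_mul_of_pos_right _ hL1)
          refine h6.trans ?_
          have hM0 : (0 : ℝ) < ((N / m : ℕ) : ℝ) := by exact_mod_cast lt_of_le_of_lt (Nat.zero_le _) hML
          have hMy : (N : ℝ) ^ κ ≤ ((N / m : ℕ) : ℝ) := hLz'.trans (by exact_mod_cast hML.le)
          have h7 : ((N / m : ℕ) : ℝ) ^ (1 - η) ≤ ((N : ℝ) ^ κ) ^ (-η) * (((N / m : ℕ)) : ℝ) := by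
            rw [show (1 : ℝ) - η = -η + 1 by ring, Real.rpow_add hM0, Real.rpow_one]
            apply mul_le_mul_of_nonneg_right _ hM0.le
            exact Real.rpow_le_rpow_of_nonpos (by linarith) hMy (by linarith)
          calc (k : ℝ) * ((N / m : ℕ) : ℝ) ^ (1 - η)
              ≤ (2 * Real.log N + 1) * (((N : ℝ) ^ κ) ^ (-η) * (((N / m : ℕ)) : ℝ)) := by
                apply mul_le_mul hkr h7 (by positivity) (by linarith)
            _ = _ := by ring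
      · rw [if_pos hD]
        have h6 : ‖∑ p ∈ (Ioc (max (z ^ 2) (lam m)) (N / m)).filter Nat.Prime, e (θ * f (m * p))‖ ≤ (N : ℝ) * (1 / m) := by
          refine (norm_sum_le _ _).trans ?_
          rw [sum_congr rfl fun p _ => norm_e _, sum_const, nsmul_eq_mul, mul_one]
          have h7 : ((Ioc (max (z ^ 2) (lam m)) (N / m)).filter Nat.Prime).card ≤ N / m := by
            refine (card_filter_le _ _).trans ?_
            rw [Nat.card_Ioc]
            exact Nat.sub_le _ _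
          have h8 : (((Ioc (max (z ^ 2) (lam m)) (N / m)).filter Nat.Prime).card : ℝ) ≤ ((N / m : ℕ) : ℝ) := by
            exact_mod_cast h7
          refine h8.trans ((Nat.cast_div_le (α := ℝ)).trans (le_of_eq ?_))
          ring
        linarith
    refine (sum_le_sum hterm).trans ?_
    rw [sum_add_distrib, ← mul_sum, ← sum_filter]
    have h6 := sum_div_le N (by omega)
    have h7 : ((N : ℝ) ^ κ) ^ (-η) = (N : ℝ) ^ (-(κ * η)) := by
      rw [← Real.rpow_mul hN0.le]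
      congr 1
      ring
    have h8 : (2 * Real.log N + 1) * ((N : ℝ) ^ κ) ^ (-η) * ∑ m ∈ Icc 1 N, (((N / m : ℕ) : ℕ) : ℝ) ≤ δ / 4 * N := by
      rw [h7]
      calc (2 * Real.log N + 1) * (N : ℝ) ^ (-(κ * η)) * ∑ m ∈ Icc 1 N, (((N / m : ℕ) : ℕ) : ℝ)
          ≤ (2 * Real.log N + 1) * (N : ℝ) ^ (-(κ * η)) * (N * (1 + Real.log N)) :=
            mul_le_mul_of_nonneg_left h6 (by positivity)
        _ = (2 * Real.log N + 1) * (1 + Real.log N) * (N : ℝ) ^ (-(κ * η)) * N := by ring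
        _ ≤ δ / 4 * N := mul_le_mul_of_nonneg_right h2 hN0.le
    rw [← mul_sum]
    have h9 := mul_le_mul_of_nonneg_left h1 hN0.le
    linarith
  -- together
  have hsp : ∑ n ∈ Icc 1 N, e (θ * f n) =
      ∑ n ∈ (Icc 1 N).filter (fun n => ∃ m p : ℕ, 1 ≤ m ∧ p.Prime ∧ z ^ 2 < p ∧ Below m p ∧ n = m * p), e (θ * f n) +
      ∑ n ∈ (Icc 1 N).filter (fun n => ¬ ∃ m p : ℕ, 1 ≤ m ∧ p.Prime ∧ z ^ 2 < p ∧ Below m p ∧ n = m * p),
        e (θ * f n) := (sum_filter_add_sum_filter_not _ _ _).symm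
  rw [hsp]
  refine (norm_add_le _ _).trans ?_
  have h6 : ‖∑ n ∈ (Icc 1 N).filter (fun n => ¬ ∃ m p : ℕ, 1 ≤ m ∧ p.Prime ∧ z ^ 2 < p ∧ Below m p ∧ n = m * p),
      e (θ * f n)‖ ≤ δ / 2 * N := by
    refine (norm_sum_le _ _).trans ?_
    rw [sum_congr rfl fun n _ => norm_e _, sum_const, nsmul_eq_mul, mul_one]
    exact hexc
  linarith

end Pool.Agent.V8H12.AM
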