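import Pool.Agent.V8H12.AM.D
import Pool.Agent.N375.AV.Ex

set_option autoImplicit false

/-! Functions linear in the large primes: examples (helper12). -/

namespace Pool.Agent.V8H12.AM

open Finset Filter Classical
open Pool.Agent.N375.AV (Below below_not_dvd)
open Pool.Agent.N733.TG (LM)

lemma Mult.smul {b : ℕ → ℕ} (hb : Mult b) {B : ℕ} (hB : 1 ≤ B) : Mult (fun m => b m * B) := by
  rintro θ hθ ⟨τ, c, hτ, hc, hL⟩
  have hB0 : (0 : ℝ) < B := by exact_mod_cast hB
  have h1 : Irrational ((B : ℝ) * θ) := by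
    have := hθ.natCast_mul (show B ≠ 0 by omega)
    exact this
  obtain ⟨ε₀, hε₀, h2⟩ := hb ((B : ℝ) * θ) h1 ⟨τ, c * (B : ℝ) ^ (-τ), hτ, by positivity, fun n hn m => by
    have h3 := hL (n * B) (Nat.mul_pos hn hB) m
    have hn0 : (0 : ℝ) < n := by exact_mod_cast hn
    push_cast at h3
    rw [Real.mul_rpow hn0.le hB0.le] at h3
    have e1 : (n : ℝ) * (B * θ) = n * B * θ := by ring
    rw [e1]
    refine le_trans (le_of_eq ?_) h3
    ring⟩
  refine ⟨ε₀, hε₀, fun ε hε hε1 κ hκ δ hδ => ?_⟩
  filter_upwards [h2 ε hε hε1 κ hκ δ hδ] with N hN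
  have e2 : ∀ m : ℕ, ((b m * B : ℕ) : ℝ) * θ = (b m : ℝ) * ((B : ℝ) * θ) := by
    intro m
    push_cast
    ring
  simp only [e2]
  exact hN

/-- a positive multiplicative function of polynomial growth with `f p = B p + c` for all large primes -/
structure MulLin (f : ℕ → ℕ) : Prop where
  mul : ∀ m n : ℕ, Nat.Coprime m n → f (m * n) = f m * f n
  pos : ∀ m : ℕ, 1 ≤ m → 1 ≤ f m
  growth : ∃ C D : ℕ, ∀ m : ℕ, 1 ≤ m → f m ≤ C * m ^ D
  prime : ∃ (B : ℕ) (c : ℤ) (P : ℕ), 1 ≤ B ∧ ∀ p : ℕ, P ≤ p → p.Prime → (f p : ℤ) = B * p + c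

/-- an additive function with `f p = B p + c` for all large primes -/
structure AddLin (f : ℕ → ℕ) : Prop where
  add : ∀ m n : ℕ, Nat.Coprime m n → f (m * n) = f m + f n
  prime : ∃ (B : ℕ) (c : ℤ) (P : ℕ), 1 ≤ B ∧ ∀ p : ℕ, P ≤ p → p.Prime → (f p : ℤ) = B * p + c

lemma MulLin.lm {f : ℕ → ℕ} (hf : MulLin f) : LM f where
  mul := hf.mul
  pos := hf.pos
  growth := hf.growth
  prime := by
    obtain ⟨B, c, P, hB, hP⟩ := hf.prime
    refine ⟨P, B + c.natAbs, fun p hp hpp => ⟨?_, fun q hq hqq h => ?_⟩⟩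
    · have e1 := hP p hp hpp
      have e2 : (c.natAbs : ℤ) * 1 ≤ c.natAbs * p :=
        mul_le_mul_of_nonneg_left (by exact_mod_cast hpp.one_lt.le) (by positivity)
      have e3 : c ≤ c.natAbs := Int.le_natAbs
      have : (f p : ℤ) ≤ (B + c.natAbs) * p := by
        rw [e1]
        linarith
      exact_mod_cast this
    · have e1 := hP p hp hpp
      have e2 := hP q hq hqq
      rw [h, e1] at e2
      have hB0 : (B : ℤ) ≠ 0 := by
        have : B ≠ 0 := by omega
        exact_mod_cast this
      have : (q : ℤ) = p := by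
        have h3 : (B : ℤ) * q = B * p := by linarith
        exact mul_left_cancel₀ hB0 h3
      exact_mod_cast this

lemma coprime_of_below {m p : ℕ} (hp : p.Prime) (h : Below m p) : Nat.Coprime m p :=
  ((hp.coprime_iff_not_dvd).2 (below_not_dvd hp h)).symm

theorem MulLin.pl {f : ℕ → ℕ} (hf : MulLin f) : PL f := by
  obtain ⟨B, c, P, hB, hP⟩ := hf.prime
  refine ⟨fun m => f m * c, fun m => f m * B, P, (mult_lm hf.lm).smul hB, fun m p hm hp hPp hb => ?_⟩
  rw [hf.mul m p (coprime_of_below hp hb)]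
  push_cast
  rw [hP p hPp hp]
  ring

theorem AddLin.pl {f : ℕ → ℕ} (hf : AddLin f) : PL f := by
  obtain ⟨B, c, P, hB, hP⟩ := hf.prime
  refine ⟨fun m => f m + c, fun _ => B, P, mult_const hB, fun m p hm hp hPp hb => ?_⟩
  rw [hf.add m p (coprime_of_below hp hb)]
  push_cast
  rw [hP p hPp hp]
  ring

/-- the largest prime factor -/
theorem pl_largest : PL (fun n => n.primeFactors.sup id) := by
  refine ⟨fun _ => 0, fun _ => 1, 0, mult_const le_rfl, fun m p hm hp _ hb => ?_⟩
  have h1 : (m * p).primeFactors.sup id = p := by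
    apply le_antisymm
    · apply Finset.sup_le
      intro q hq
      rw [Nat.mem_primeFactors] at hq
      rcases (hq.1.dvd_mul).1 hq.2.1 with h | h
      · have := hb q 1 hq.1 le_rfl (by rwa [pow_one])
        rw [pow_one] at this
        exact this.le
      · exact ((Nat.prime_dvd_prime_iff_eq hq.1 hp).1 h).le
    · have : p ∈ (m * p).primeFactors := by
        rw [Nat.mem_primeFactors]
        exact ⟨hp, dvd_mul_left p m, Nat.mul_ne_zero (by omega) hp.ne_zero⟩
      exact Finset.le_sup (f := id) this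
  simp only [h1]
  push_cast
  ring

/-- Kempner's function: the least `k` such that `n` divides `k!` -/
theorem pl_kempner : PL (fun n => sInf {k : ℕ | n ∣ k.factorial}) := by
  refine ⟨fun _ => 0, fun _ => 1, 0, mult_const le_rfl, fun m p hm hp _ hb => ?_⟩
  have h1 : sInf {k : ℕ | m * p ∣ k.factorial} = p := by
    have h1 : m ∣ (p - 1).factorial := by
      rw [Nat.dvd_iff_prime_pow_dvd_dvd]
      intro q j hq hd
      rcases Nat.eq_zero_or_pos j with h | h
      · rw [h, pow_zero]; exact one_dvd _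
      · have := hb q j hq h hd
        exact Nat.dvd_factorial (pow_pos hq.pos _) (by omega)
    have h2 : m * p ∣ p.factorial := by
      rw [← Nat.mul_factorial_pred hp.ne_zero, mul_comm]
      exact mul_dvd_mul_left p h1
    apply le_antisymm
    · exact Nat.sInf_le h2
    · apply le_csInf ⟨p, h2⟩
      intro k hk
      exact (hp.dvd_factorial).1 ((dvd_mul_left p m).trans hk)
  simp only [h1]
  push_cast
  ring

theorem mulLin_id : MulLin (fun m => m) where
  mul := fun _ _ _ => rfl
  pos := fun _ h => h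
  growth := ⟨1, 1, fun m _ => by rw [one_mul, pow_one]⟩
  prime := ⟨1, 0, 0, le_rfl, fun p _ _ => by push_cast; ring⟩

theorem mulLin_totient : MulLin Nat.totient where
  mul := fun m n h => Nat.totient_mul h
  pos := fun m hm => Nat.totient_pos.2 hm
  growth := ⟨1, 1, fun m _ => by rw [one_mul, pow_one]; exact Nat.totient_le m⟩
  prime := ⟨1, -1, 0, le_rfl, fun p _ hp => by
    rw [Nat.totient_prime hp]
    have := hp.pos
    push_cast [Nat.cast_sub hp.one_le]
    ring⟩

theorem mulLin_sigma : MulLin (fun m => ∑ d ∈ m.divisors, d) where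
  mul := Pool.Agent.N733.TG.lm_sigma.mul
  pos := Pool.Agent.N733.TG.lm_sigma.pos
  growth := Pool.Agent.N733.TG.lm_sigma.growth
  prime := ⟨1, 1, 0, le_rfl, fun p _ hp => by
    rw [hp.sum_divisors]
    push_cast
    ring⟩

/-- the number of the divisors times the number -/
theorem mulLin_div : MulLin (fun m => m * m.divisors.card) where
  mul := fun m n h => by
    show m * n * (m * n).divisors.card = _
    rw [h.card_divisors_mul]
    ring
  pos := fun m hm => Nat.mul_pos hm (card_pos.2 ⟨1, Nat.one_mem_divisors.2 (by omega)⟩)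
  growth := ⟨1, 2, fun m _ => by
    calc m * m.divisors.card ≤ m * m := Nat.mul_le_mul_left _ (Nat.card_divisors_le_self m)
      _ = 1 * m ^ 2 := by ring⟩
  prime := ⟨2, 0, 0, by norm_num, fun p _ hp => by
    have : p.divisors.card = 2 := by
      rw [hp.divisors, card_pair hp.one_lt.ne]
    rw [this]
    push_cast
    ring⟩

/-- the sum of the prime factors, with multiplicity -/
theorem addLin_sopfr : AddLin (fun n => n.primeFactorsList.sum) where
  add := fun a b hab => ((Nat.perm_primeFactorsList_mul_of_coprime hab).sum_eq).trans List.sum_append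
  prime := ⟨1, 0, 0, le_rfl, fun p _ hp => by
    simp [Nat.primeFactorsList_prime hp]⟩

end Pool.Agent.V8H12.AM
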